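import Pool.Agent.Lib.H87G.Api

/-!
# H87G chunk H3 (size S)

n ≤ 2 ^ (Nat.log 2 n + 1) (`Nat.lt_pow_succ_log_self`), so Nat.clog 2 n ≤ Nat.log 2 n + 1
(`Nat.clog_le_of_le_pow` or `Nat.le_pow_iff_clog_le`), and 1 ≤ Nat.log 2 n for n ≥ 2
(`Nat.log_pos`).
-/

namespace Pool.H87G

theorem H3 (n : ℕ) (hn : 2 ≤ n) : Nat.clog 2 n ≤ 2 * Nat.log 2 n := by
  have h1 : n ≤ 2 ^ (Nat.log 2 n + 1) := (Nat.lt_pow_succ_log_self (by norm_num) n).le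
  have h2 : Nat.clog 2 n ≤ Nat.log 2 n + 1 := Nat.clog_le_of_le_pow h1
  have h3 : 1 ≤ Nat.log 2 n := Nat.log_pos (by norm_num) hn
  omega

end Pool.H87G
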