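import Pool.Agent.Lib.H87G.Api

/-!
# H87G chunk B1 (size M)

Greedy choice of g disjoint pairs of columns, the i-th pair having equal values in row i.
Induction on g (x and n arbitrary).  g = 0 : trivial.  Step g + 1 : 2 (g+1) + 1 ≤ n.  Apply the
induction hypothesis to `fun i => x i.castSucc` and get p : Fin g → Bool → Fin n.  The set U of
used columns {p i b} (image of Fin g × Bool) has at most 2 g elements, so the complement Uᶜ
(a Finset of Fin n) has at least n - 2 g ≥ 3 > 2 = card Bool elements, and by
`Finset.exists_ne_map_eq_of_card_lt_of_maps_to` there are two different columns c, c' in Uᶜ with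
x (Fin.last g) c = x (Fin.last g) c'.  Put p' = Fin.snoc-like function: p' (castSucc i) = p i,
p' (last) b = if b then c' else c (for instance
`fun i b => Fin.lastCases (motive := fun _ => Fin n) (if b then c' else c) (fun j => p j b) i`).
The equality of values is clear; injectivity: old/old from the IH, last/last from c ≠ c',
old/last because c, c' are not in U.
-/

namespace Pool.H87G

theorem B1 {g n : ℕ} (x : Fin g → Fin n → Bool) (hn : 2 * g + 1 ≤ n) :
    ∃ p : Fin g → Bool → Fin n, (∀ i, x i (p i false) = x i (p i true)) ∧
      ∀ i i' b b', p i b = p i' b' → i = i' ∧ b = b' := by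
  classical
  induction g with
  | zero =>
    exact ⟨fun i => i.elim0, fun i => i.elim0, fun i => i.elim0⟩
  | succ g ih =>
    obtain ⟨p, hp1, hp2⟩ := ih (fun i => x i.castSucc) (by omega)
    set U : Finset (Fin n) := (Finset.univ : Finset (Fin g × Bool)).image (fun q => p q.1 q.2)
      with hU
    have hUc : U.card ≤ 2 * g := by
      have h1 : U.card ≤ (Finset.univ : Finset (Fin g × Bool)).card := Finset.card_image_le
      have h2 : (Finset.univ : Finset (Fin g × Bool)).card = g * 2 := by
        rw [Finset.card_univ, Fintype.card_prod, Fintype.card_fin, Fintype.card_bool]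
      omega
    have hUc' : (Finset.univ : Finset Bool).card < Uᶜ.card := by
      rw [Finset.card_compl, Fintype.card_fin, Finset.card_univ, Fintype.card_bool]
      omega
    obtain ⟨c, hc, c', hc', hcc', hxc⟩ :=
      Finset.exists_ne_map_eq_of_card_lt_of_maps_to hUc' (f := fun c => x (Fin.last g) c)
        (fun _ _ => Finset.mem_coe.mpr (Finset.mem_univ _))
    rw [Finset.mem_compl] at hc hc'
    have hmem : ∀ i b, p i b ∈ U := by
      intro i b
      rw [hU]
      exact Finset.mem_image.mpr ⟨(i, b), Finset.mem_univ _, rfl⟩
    refine ⟨fun i b => Fin.lastCases (motive := fun _ => Fin n) (if b then c' else c)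
      (fun j => p j b) i, ?_, ?_⟩
    · intro i
      refine Fin.lastCases ?_ (fun j => ?_) i
      · simp only [Fin.lastCases_last]
        exact hxc
      · simp only [Fin.lastCases_castSucc]
        exact hp1 j
    · intro i i' b b'
      refine Fin.lastCases ?_ (fun j => ?_) i
      · refine Fin.lastCases ?_ (fun j' => ?_) i'
        · simp only [Fin.lastCases_last]
          intro h
          refine ⟨trivial, ?_⟩
          cases b <;> cases b' <;> simp_all
        · simp only [Fin.lastCases_last, Fin.lastCases_castSucc]
          intro h
          exfalso
          have h1 := hmem j' b'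
          rw [← h] at h1
          cases b <;> simp_all
      · refine Fin.lastCases ?_ (fun j' => ?_) i'
        · simp only [Fin.lastCases_last, Fin.lastCases_castSucc]
          intro h
          exfalso
          have h1 := hmem j b
          rw [h] at h1
          cases b' <;> simp_all
        · simp only [Fin.lastCases_castSucc]
          intro h
          obtain ⟨h1, h2⟩ := hp2 j j' b b' h
          exact ⟨by rw [h1], h2⟩

end Pool.H87G
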