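import Pool.Agent.Lib.H87G.Api
import Pool.Agent.Lib.H87G.B1

/-!
# H87G chunk B2 (size S/M)

Take p from B1 (with g = b + 1).  Let K be as in the definition of `ValBin x b (Fin 1)`.
Define lam : (Fin b × Bool) ⊕ (Fin 1 → Bool) → Fin n by lam (inl (j, β)) = p j.castSucc β and
lam (inr z) = p (Fin.last b) (z 0).
Every row is in K: for i = castSucc j, f = x i ∘ lam satisfies f (inl (j, false)) =
x i (p i false) = x i (p i true) = f (inl (j, true)), so f ∈ K by the second hypothesis on K
(k = j).  For i = last b: z ↦ f (inr z) = x i (p i (z 0)) is constant (its value at z 0 = false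
and at z 0 = true are equal by B1), hence MissBit 0, so f ∈ K by the third hypothesis.
By RC: for every h : Fin n → Bool, h ∘ lam ∈ K.  lam is injective (by the injectivity of p;
for inr z, inr z' : z 0 = z' 0 gives z = z' since Fin 1 is a subsingleton: `funext`, `Fin.eq_zero`/
`Subsingleton.elim`).  So every f : _ → Bool is h ∘ lam with
h c = if ∃ m, lam m = c then f (that m) else false, i.e. `h = Function.extend lam f (fun _ => false)`
and `Function.Injective.extend_apply`.  Hence K = univ (`Set.eq_univ_of_forall`).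
-/

namespace Pool.H87G

theorem B2 {b n : ℕ} (x : Fin (b + 1) → Fin n → Bool) (hn : 2 * (b + 1) + 1 ≤ n) :
    ValBin x b (Fin 1) := by
  intro K hK h1 h2
  obtain ⟨p, hp, hinj⟩ := B1 x hn
  let lam : (Fin b × Bool) ⊕ (Fin 1 → Bool) → Fin n :=
    Sum.elim (fun s => p s.1.castSucc s.2) (fun z => p (Fin.last b) (z 0))
  have hrow : ∀ i, (fun z => x i (lam z)) ∈ K := by
    intro i
    refine Fin.lastCases ?_ (fun j => ?_) i
    · refine h2 _ ⟨0, ?_⟩
      intro y z _
      change x (Fin.last b) (p (Fin.last b) (y 0)) = x (Fin.last b) (p (Fin.last b) (z 0))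
      have h3 := hp (Fin.last b)
      cases y 0 <;> cases z 0 <;> simp [h3]
    · exact h1 _ ⟨j, hp j.castSucc⟩
  have hlam : Function.Injective lam := by
    rintro (⟨j, β⟩ | z) (⟨j', β'⟩ | z') h
    · obtain ⟨h3, h4⟩ := hinj _ _ _ _ h
      have h6 : j = j' := Fin.castSucc_injective b h3
      have h7 : β = β' := h4
      rw [h6, h7]
    · obtain ⟨h3, h4⟩ := hinj _ _ _ _ h
      exact absurd h3 (Fin.castSucc_lt_last j).ne
    · obtain ⟨h3, h4⟩ := hinj _ _ _ _ h
      exact absurd h3.symm (Fin.castSucc_lt_last j').ne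
    · obtain ⟨h3, h4⟩ := hinj _ _ _ _ h
      congr 1
      funext i
      rw [Subsingleton.elim i 0, h4]
  refine Set.eq_univ_of_forall fun f => ?_
  have h5 := hK lam hrow (Function.extend lam f (fun _ => false))
  have e : (fun z => Function.extend lam f (fun _ => false) (lam z)) = f := by
    funext z
    exact hlam.extend_apply _ _ _
  rwa [e] at h5

end Pool.H87G
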