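import Pool.Agent.Lib.H87G.Api

/-!
# H87G chunk C0 (size S/M)

A nonempty family closed under all binary Boolean operations is closed under all Boolean
operations.  Induction on m (w and G arbitrary).
* m = 0 : G (fun i => w i z) = G (default) is a constant c (all functions Fin 0 → Bool are equal:
  `Subsingleton.elim`).  Take f₀ ∈ Fam and G0 = fun _ _ => c.
* m + 1 : put G₁ y = G (Fin.cons true y), G₀ y = G (Fin.cons false y), w' i = w i.succ.  By the
  induction hypothesis f₁ = (z ↦ G₁ (w' z)) and f₀ = (z ↦ G₀ (w' z)) are in Fam.  Let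
  a z = w 0 z.  Then u z := (a z && f₁ z) is in Fam (G0 = and), v z := (!(a z) && f₀ z) is in Fam
  (G0 s t = !s && t) and u or v is in Fam (G0 = or), and
  G (fun i => w i z) = (u z || v z): `fun i => w i z = Fin.cons (w 0 z) (fun i => w i.succ z)`
  (`Fin.cons_self_tail`), then cases on w 0 z.
-/

namespace Pool.H87G

theorem C0 {X : Type} (Fam : Set (X → Bool)) (hne : Fam.Nonempty)
    (h : ∀ (G0 : Bool → Bool → Bool), ∀ f ∈ Fam, ∀ f' ∈ Fam,
      (fun z => G0 (f z) (f' z)) ∈ Fam)
    (m : ℕ) (w : Fin m → X → Bool) (hw : ∀ i, w i ∈ Fam) (G : (Fin m → Bool) → Bool) :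
    (fun z => G (fun i => w i z)) ∈ Fam := by
  induction m with
  | zero =>
    obtain ⟨f0, hf0⟩ := hne
    have h1 := h (fun _ _ => G (fun i => i.elim0)) f0 hf0 f0 hf0
    have e : (fun z => G (fun i => w i z)) = fun _ => G (fun i : Fin 0 => i.elim0) := by
      funext z
      congr 1
      exact Subsingleton.elim _ _
    rw [e]
    exact h1
  | succ m ih =>
    have h1 := ih (fun i => w i.succ) (fun i => hw i.succ) (fun y => G (Fin.cons true y))
    have h0 := ih (fun i => w i.succ) (fun i => hw i.succ) (fun y => G (Fin.cons false y))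
    have hu := h (fun s t => s && t) _ (hw 0) _ h1
    have hv := h (fun s t => !s && t) _ (hw 0) _ h0
    have huv := h (fun s t => s || t) _ hu _ hv
    have e : (fun z => G (fun i => w i z)) = fun z =>
        ((w 0 z && G (Fin.cons true (fun i => w i.succ z))) ||
          (!(w 0 z) && G (Fin.cons false (fun i => w i.succ z)))) := by
      funext z
      have e1 : (fun i => w i z) = (Fin.cons (w 0 z) (fun i => w i.succ z) : Fin (m + 1) → Bool) := by
        funext i
        refine Fin.cases ?_ (fun j => ?_) i
        · rw [Fin.cons_zero]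
        · rw [Fin.cons_succ]
      rw [e1]
      cases w 0 z <;> simp
    rw [e]
    exact huv

end Pool.H87G
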