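import Pool.Agent.Lib.H87G.Api

/-!
# H87G chunk C1a (size M)

Write u z = G0 (f z) (f' z).  Let v : Fin r → X → Bool with v l ∈ insert u Fam for all l, and G
missing the bit l.  First note (*): for every v' with all v' j ∈ Fam and EVERY G' :
(z ↦ G' (fun j => v' j z)) ∈ W : by `hW v'` (the hypothesis of LRule is `hPi v'`).

Let U = {j | j ≠ l and v j ∉ Fam} (so v j = u for j ∈ U).
Case U = ∅ : let v' j = if j = l then f else v j (all in Fam).  Then G (fun j => v j z) =
G (fun j => v' j z) because G misses l, and this is in W by (*).
Case U ≠ ∅ : pick j0 ∈ U.  Let v' j = if j = l then f' else if v j ∈ Fam then v j else f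
(classical `if`); all in Fam, v' l = f', v' j0 = f (j0 ≠ l).  Let
G' y = G (fun j => if v j ∈ Fam then y j else G0 (y j0) (y l)).
Then for every z : G' (fun j => v' j z) = G (fun j => v j z): the two arguments of G agree at every
j ≠ l : if v j ∈ Fam both are v j z; otherwise v j = u and the left one is
G0 (v' j0 z) (v' l z) = G0 (f z) (f' z) = u z; so G takes the same value as it misses l.  By (*)
the function is in W.
-/

namespace Pool.H87G

theorem C1a {X : Type} {r : ℕ} (W : Set (X → Bool)) (hW : LRule r W) (Fam : Set (X → Bool))
    (hPi : PiProp r W Fam) (G0 : Bool → Bool → Bool) (f f' : X → Bool) (hf : f ∈ Fam)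
    (hf' : f' ∈ Fam) : PiProp r W (insert (fun z => G0 (f z) (f' z)) Fam) := by
  classical
  intro v hv G hG
  obtain ⟨l, hl⟩ := hG
  have star : ∀ v' : Fin r → X → Bool, (∀ j, v' j ∈ Fam) → ∀ G' : (Fin r → Bool) → Bool,
      (fun z => G' (fun j => v' j z)) ∈ W :=
    fun v' hv' G' => hW v' (hPi v' hv') G'
  by_cases hU : ∃ j, j ≠ l ∧ v j ∉ Fam
  · obtain ⟨j0, hj0, hj0'⟩ := hU
    have h1 : ∀ j, (if j = l then f' else if v j ∈ Fam then v j else f) ∈ Fam := by
      intro j
      split_ifs with h1 h2
      · exact hf'
      · exact h2
      · exact hf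
    have h2 := star (fun j => if j = l then f' else if v j ∈ Fam then v j else f) h1
      (fun y => G (fun j => if v j ∈ Fam then y j else G0 (y j0) (y l)))
    have e : (fun z => G (fun l => v l z)) = fun z => G (fun j => if v j ∈ Fam then
        (if j = l then f' else if v j ∈ Fam then v j else f) z else
        G0 ((if j0 = l then f' else if v j0 ∈ Fam then v j0 else f) z)
          ((if l = l then f' else if v l ∈ Fam then v l else f) z)) := by
      funext z
      apply hl
      intro j hj
      by_cases hvj : v j ∈ Fam
      · rw [if_pos hvj, if_neg hj, if_pos hvj]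
      · have h3 : v j = fun z => G0 (f z) (f' z) := (hv j).resolve_right hvj
        rw [if_neg hvj, if_neg hj0, if_neg hj0', if_pos rfl, h3]
    rw [e]
    exact h2
  · push Not at hU
    have h1 : ∀ j, (if j = l then f else v j) ∈ Fam := by
      intro j
      split_ifs with h1
      · exact hf
      · exact hU j h1
    have h2 := star (fun j => if j = l then f else v j) h1 G
    have e : (fun z => G (fun l => v l z)) = fun z => G (fun j => (if j = l then f else v j) z) := by
      funext z
      apply hl
      intro j hj
      rw [if_neg hj]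
    rw [e]
    exact h2

end Pool.H87G
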