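import Pool.Agent.Lib.H87G.Api
import Pool.Agent.Lib.H87G.C0
import Pool.Agent.Lib.H87G.C1a

/-!
# H87G chunk C1 (size M)

Case r = 1 : every G : (Fin 1 → Bool) → Bool missing bit 0 is constant.  Since F0 is nonempty
(f₀ ∈ F0), `h0` (with v = fun _ => f₀, G = fun _ => c) gives: all constants (fun _ => c) are in W.
Hence for EVERY v : Fin 1 → X → Bool the hypothesis of `hW v` holds (G missing bit j, j = 0 :
G (fun l => v l z) = G (fun _ => false) for all z), so for every function φ : X → Bool,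
φ = (fun z => (fun y => y 0) (fun l => φ z)) ∈ W.  So W = univ.

Case r ≥ 2 : The set of families {Fam | F0 ⊆ Fam ∧ PiProp r W Fam} is finite (X is finite, so
X → Bool and Set (X → Bool) are finite: `Set.toFinite`) and nonempty (F0), so it has a maximal
element Fam (`Set.Finite.exists_maximal` or `Set.Finite.exists_le_maximal`).  For G0, f, f' ∈ Fam,
C1a gives PiProp for insert u Fam, so u ∈ Fam by maximality.  By C0 (Fam is nonempty as
F0 ⊆ Fam), φ := (fun z => G (fun i => w i z)) ∈ Fam.  Finally use PiProp of Fam with v = fun _ => φ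
and the function G' y = y 0 (index ⟨0, _⟩ : Fin r) which misses the bit ⟨1, _⟩ (r ≥ 2) :
φ ∈ W.
-/

namespace Pool.H87G

theorem C1 {X : Type} [Finite X] {r : ℕ} (hr : 1 ≤ r) (W : Set (X → Bool)) (hW : LRule r W)
    (F0 : Set (X → Bool)) (hne : F0.Nonempty) (h0 : PiProp r W F0)
    (m : ℕ) (w : Fin m → X → Bool) (hw : ∀ i, w i ∈ F0) (G : (Fin m → Bool) → Bool) :
    (fun z => G (fun i => w i z)) ∈ W := by
  rcases Nat.lt_or_ge 1 r with h2 | h2
  · obtain ⟨Fam, ⟨hF, hP⟩, hmax⟩ :=
      (Set.toFinite {Fam : Set (X → Bool) | F0 ⊆ Fam ∧ PiProp r W Fam}).exists_maximal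
        ⟨F0, subset_rfl, h0⟩
    have hcl : ∀ (G0 : Bool → Bool → Bool), ∀ f ∈ Fam, ∀ f' ∈ Fam,
        (fun z => G0 (f z) (f' z)) ∈ Fam := by
      intro G0 f hf f' hf'
      have h3 := C1a W hW Fam hP G0 f f' hf hf'
      exact hmax ⟨hF.trans (Set.subset_insert _ _), h3⟩ (Set.subset_insert _ _)
        (Set.mem_insert _ _)
    have hphi := C0 Fam (hne.mono hF) hcl m w (fun i => hF (hw i)) G
    have h4 := hP (fun _ => fun z => G (fun i => w i z)) (fun _ => hphi)
      (fun y => y ⟨0, by omega⟩) ⟨⟨1, h2⟩, by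
        intro y z hyz
        exact hyz _ (by simp)⟩
    exact h4
  · obtain rfl : r = 1 := by omega
    obtain ⟨f0, hf0⟩ := hne
    have hc : ∀ c : Bool, (fun _ : X => c) ∈ W := by
      intro c
      exact h0 (fun _ => f0) (fun _ => hf0) (fun _ => c) ⟨0, fun _ _ _ => rfl⟩
    refine hW (fun _ => fun z => G (fun i => w i z)) ?_ (fun y => y 0)
    rintro G' ⟨j, hj⟩
    have e : (fun z : X => G' (fun _ => G (fun i => w i z))) = fun _ => G' (fun _ => false) := by
      funext z
      apply hj
      intro i hi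
      exact absurd (Subsingleton.elim i j) hi
    rw [e]
    exact hc _

end Pool.H87G
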