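import Pool.Agent.Lib.H87G.Api

/-!
# H87G chunk C2a (size M)

Let v : Fin r → X → Bool with hypothesis (H) : for G missing a bit, z ↦ G (fun l => v l z) is in
W := {f | ∀ η, Sum.elim η f ∈ K}.
Let ψ : (Fin b × Bool) ⊕ X → (Fin b × Bool) ⊕ (Fin r → Bool), ψ = Sum.map id (fun z l => v l z)
and K' = {f | (fun s => f (ψ s)) ∈ K}.  K' satisfies RC (`rc_pull`).  If f (inl (k, false)) =
f (inl (k, true)) then f ∘ ψ has the same property, so f ∈ K' by h1.  If z ↦ f (inr z) misses a
bit then by (H) applied to G = fun z => f (inr z) and η = fun s => f (inl s) :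
Sum.elim η (z ↦ G (fun l => v l z)) ∈ K, and this function is f ∘ ψ (funext, cases).  So K' = univ
by h (ValBin).  Now for any G and η : the function Sum.elim η G is in K' = univ, i.e.
(Sum.elim η G) ∘ ψ = Sum.elim η (z ↦ G (fun l => v l z)) ∈ K.
-/

namespace Pool.H87G

theorem C2a {g n b r : ℕ} (x : Fin g → Fin n → Bool) (h : ValBin x b (Fin r)) {X : Type}
    (K : Set ((Fin b × Bool) ⊕ X → Bool)) (hK : RC x K)
    (h1 : ∀ f, (∃ k, f (Sum.inl (k, false)) = f (Sum.inl (k, true))) → f ∈ K) :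
    LRule r {f : X → Bool | ∀ η : Fin b × Bool → Bool, Sum.elim η f ∈ K} := by
  intro v hv G η
  have h2 := h {f | (fun s => f (Sum.map id (fun z l => v l z) s)) ∈ K} (rc_pull _ hK) ?_ ?_
  · have h3 : (Sum.elim η G : (Fin b × Bool) ⊕ (Fin r → Bool) → Bool) ∈
        {f | (fun s => f (Sum.map id (fun z l => v l z) s)) ∈ K} := by
      rw [h2]; trivial
    have h4 : (fun s => (Sum.elim η G : (Fin b × Bool) ⊕ (Fin r → Bool) → Bool) (Sum.map id (fun z l => v l z) s)) =
        (Sum.elim η (fun z => G (fun l => v l z)) : (Fin b × Bool) ⊕ X → Bool) := by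
      funext s
      cases s <;> rfl
    have h5 : (fun s => (Sum.elim η G : (Fin b × Bool) ⊕ (Fin r → Bool) → Bool) (Sum.map id (fun z l => v l z) s)) ∈ K := h3
    rw [h4] at h5
    exact h5
  · rintro f ⟨k, hk⟩
    exact h1 _ ⟨k, hk⟩
  · rintro f ⟨j, hj⟩
    have h3 := hv (fun z => f (Sum.inr z)) ⟨j, hj⟩ (fun s => f (Sum.inl s))
    have h4 : (Sum.elim (fun s => f (Sum.inl s)) (fun z => f (Sum.inr (fun l => v l z))) : (Fin b × Bool) ⊕ X → Bool) =
        (fun s => f (Sum.map id (fun z l => v l z) s)) := by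
      funext s
      cases s <;> rfl
    rw [h4] at h3
    exact h3

end Pool.H87G
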