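import Pool.Agent.Lib.H87G.Api
import Pool.Agent.Lib.H87G.C1
import Pool.Agent.Lib.H87G.C2a

/-!
# H87G chunk C2 (size M)

Let T be finite and K as in the definition of ValGen.  Put X = T × (Fin r → T) (finite) and
W = {f : X → Bool | ∀ η, Sum.elim η f ∈ K}.  LRule r W by C2a.  Let
F0 = {f | (∃ u : T → Bool, ∀ z, f z = u z.1) ∨ (∃ (l : Fin r) (u : T → Bool), ∀ z, f z = u (z.2 l))}
(nonempty: constants).
PiProp r W F0 : let v j ∈ F0 for all j and let G miss the bit l.  For j ≠ l choose c j : Fin r such
that v j is either a function of z.1 or a function of z.2 (c j) (any c j works in the first case;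
r ≥ 1 so Fin r is nonempty; e.g. c j = l).  The set {c j | j ≠ l} (image of Finset.univ.erase l) has
at most r - 1 < r elements, so some c ∈ Fin r is not of the form c j with j ≠ l.  Then
z ↦ G (fun j => v j z) satisfies MissCo c : changing the coordinate c of z.2 does not change
v j z for j ≠ l, and G misses l.  So for every η, Sum.elim η (z ↦ G (fun j => v j z)) ∈ K by the
third hypothesis on K; i.e. the function is in W.
By C1 : all (z ↦ G (fun i => w i z)) with w i ∈ F0 are in W.  Every f : X → Bool is of this form:
let S = T ⊕ (Fin r × T) (a finite type, e : S ≃ Fin m by `Finite.equivFin`), and for s ∈ S let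
ind (inl t) z = decide (z.1 = t), ind (inr (l, t)) z = decide (z.2 l = t) (classical decidability);
both are in F0.  The map X → (S → Bool), z ↦ (fun s => ind s z) is injective, so
z ↦ (fun i : Fin m => ind (e.symm i) z) is injective from X to Fin m → Bool; let
G = Function.extend (this map) f (fun _ => false); then f z = G (...) by
`Function.Injective.extend_apply`.  So W = univ.  Finally f ∈ K for every f : with
η s = f (inl s) and f' z = f (inr z) : f = Sum.elim η f' (`Sum.elim_comp_inl_inr` or funext/cases)
and f' ∈ W.
-/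

namespace Pool.H87G

theorem C2 {g n b r : ℕ} (x : Fin g → Fin n → Bool) (hr : 1 ≤ r) (h : ValBin x b (Fin r)) :
    ValGen x b r := by
  classical
  intro T _ K hK h1 h2
  have hL : LRule r {f : T × (Fin r → T) → Bool | ∀ η : Fin b × Bool → Bool, Sum.elim η f ∈ K} :=
    C2a x h K hK h1
  obtain ⟨F0, hF0⟩ : ∃ F0 : Set (T × (Fin r → T) → Bool), F0 = {f |
      (∃ u : T → Bool, ∀ z, f z = u z.1) ∨ (∃ (l : Fin r) (u : T → Bool), ∀ z, f z = u (z.2 l))} :=
    ⟨_, rfl⟩
  have hne : F0.Nonempty := by
    rw [hF0]
    exact ⟨fun _ => false, Or.inl ⟨fun _ => false, fun _ => rfl⟩⟩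
  have hPi : PiProp r {f : T × (Fin r → T) → Bool | ∀ η : Fin b × Bool → Bool, Sum.elim η f ∈ K}
      F0 := by
    rintro v hv G ⟨l, hG⟩ η
    have hc : ∀ j : Fin r, ∃ c : Fin r, ∀ (t : T) (a a' : Fin r → T), a c = a' c →
        v j (t, a) = v j (t, a') := by
      intro j
      have hvj := hv j
      rw [hF0] at hvj
      rcases hvj with ⟨u, hu⟩ | ⟨c, u, hu⟩
      · exact ⟨l, fun t a a' _ => by rw [hu, hu]⟩
      · exact ⟨c, fun t a a' haa => by rw [hu, hu]; exact congrArg u haa⟩
    choose c hc using hc
    have hcard : ((Finset.univ.erase l).image c).card < r := by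
      refine lt_of_le_of_lt Finset.card_image_le ?_
      rw [Finset.card_erase_of_mem (Finset.mem_univ _), Finset.card_univ, Fintype.card_fin]
      omega
    obtain ⟨c0, hc0⟩ : ∃ c0, c0 ∉ (Finset.univ.erase l).image c := by
      by_contra hcon
      push Not at hcon
      have h3 : (Finset.univ : Finset (Fin r)) ⊆ (Finset.univ.erase l).image c :=
        fun a _ => hcon a
      have h4 := Finset.card_le_card h3
      rw [Finset.card_univ, Fintype.card_fin] at h4
      omega
    apply h2
    refine ⟨c0, ?_⟩
    intro t a a' haa'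
    apply hG
    intro j hj
    apply hc j
    apply haa'
    intro heq
    exact hc0 (Finset.mem_image.2 ⟨j, Finset.mem_erase.2 ⟨hj, Finset.mem_univ _⟩, heq⟩)
  have hall : ∀ (f : T × (Fin r → T) → Bool) (η : Fin b × Bool → Bool), Sum.elim η f ∈ K := by
    intro f
    obtain ⟨m, ⟨e⟩⟩ := Finite.exists_equiv_fin (T ⊕ (Fin r × T))
    obtain ⟨ind, hind1, hind2⟩ : ∃ ind : T ⊕ (Fin r × T) → T × (Fin r → T) → Bool,
        (∀ t z, ind (Sum.inl t) z = decide (z.1 = t)) ∧
        (∀ p z, ind (Sum.inr p) z = decide (z.2 p.1 = p.2)) :=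
      ⟨Sum.elim (fun t z => decide (z.1 = t)) (fun p z => decide (z.2 p.1 = p.2)),
        fun _ _ => rfl, fun _ _ => rfl⟩
    have hinj : Function.Injective
        (fun (z : T × (Fin r → T)) (i : Fin m) => ind (e.symm i) z) := by
      intro z z' hzz
      have h3 : ∀ s, ind s z = ind s z' := fun s => by
        have := congrFun hzz (e s)
        simpa using this
      apply Prod.ext
      · have h4 := h3 (Sum.inl z.1)
        rw [hind1, hind1] at h4
        simp only [decide_true] at h4
        exact (of_decide_eq_true h4.symm).symm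
      · funext l
        have h4 := h3 (Sum.inr (l, z.2 l))
        rw [hind2, hind2] at h4
        simp only [decide_true] at h4
        exact (of_decide_eq_true h4.symm).symm
    have h5 := C1 hr _ hL F0 hne hPi m (fun i => ind (e.symm i)) (by
      intro i
      rw [hF0]
      rcases hs : e.symm i with t | p
      · exact Or.inl ⟨fun y => decide (y = t), fun z => hind1 _ _⟩
      · exact Or.inr ⟨p.1, fun y => decide (y = p.2), fun z => hind2 _ _⟩)
      (Function.extend (fun (z : T × (Fin r → T)) (i : Fin m) => ind (e.symm i) z) f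
        (fun _ => false))
    have h6 : (fun z => Function.extend
        (fun (z : T × (Fin r → T)) (i : Fin m) => ind (e.symm i) z) f (fun _ => false)
        (fun i => ind (e.symm i) z)) = f := by
      funext z
      exact hinj.extend_apply f (fun _ => false) z
    rw [h6] at h5
    exact h5
  ext f
  refine ⟨fun _ => trivial, fun _ => ?_⟩
  have h7 := hall (fun z => f (Sum.inr z)) (fun s => f (Sum.inl s))
  have h8 : Sum.elim (fun s => f (Sum.inl s)) (fun z => f (Sum.inr z)) = f := by
    funext s
    rcases s with s | z <;> rfl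
  rwa [h8] at h7

end Pool.H87G
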