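import Pool.Agent.Lib.H87G.Api

/-!
# H87G chunk G1a (size M)

Let T be finite, φ : (ι → Bool) → Bool ⊕ (T × (Fin r → T)) with the two hypotheses of PRule for
B = {f | ∀ η, Sum.elim η f ∈ K}.  Let ψ : (Fin b × Bool) ⊕ (ι → Bool) →
(Fin (b+1) × Bool) ⊕ (T × (Fin r → T)),
ψ (inl (k, β)) = inl (k.castSucc, β), ψ (inr z) = inl (Fin.last b, β) if φ z = inl β and inr y if
φ z = inr y.
K' = {f | (fun s => f (ψ s)) ∈ K} satisfies RC (`rc_pull`).  K' = univ by ValGen x (b+1) r.
-/

namespace Pool.H87G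

theorem G1a {g n b r : ℕ} (x : Fin g → Fin n → Bool) (h : ValGen x (b + 1) r) {ι : Type}
    (K : Set ((Fin b × Bool) ⊕ (ι → Bool) → Bool)) (hK : RC x K)
    (h1 : ∀ f, (∃ k, f (Sum.inl (k, false)) = f (Sum.inl (k, true))) → f ∈ K) :
    PRule r {f : (ι → Bool) → Bool | ∀ η : Fin b × Bool → Bool, Sum.elim η f ∈ K} := by
  intro T _ φ hA hB
  let τ : Bool ⊕ (T × (Fin r → T)) → (Fin (b + 1) × Bool) ⊕ (T × (Fin r → T)) :=
    Sum.elim (fun β => Sum.inl (Fin.last b, β)) Sum.inr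
  let ψ : (Fin b × Bool) ⊕ (ι → Bool) → (Fin (b + 1) × Bool) ⊕ (T × (Fin r → T)) :=
    Sum.elim (fun s => Sum.inl (s.1.castSucc, s.2)) (fun z => τ (φ z))
  have hfψ : ∀ f : (Fin (b + 1) × Bool) ⊕ (T × (Fin r → T)) → Bool,
      (fun s => f (ψ s)) = Sum.elim (fun s : Fin b × Bool => f (Sum.inl (s.1.castSucc, s.2)))
        (fun z => (fun y => f (τ y)) (φ z)) := by
    intro f
    funext s
    cases s <;> rfl
  have hK' := h T {f | (fun s => f (ψ s)) ∈ K} (rc_pull ψ hK) (by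
    rintro f ⟨k, hk⟩
    show (fun s => f (ψ s)) ∈ K
    revert hk
    refine Fin.lastCases ?_ (fun j => ?_) k
    · intro hk
      rw [hfψ f]
      exact hA (fun y => f (τ y)) hk _
    · intro hk
      exact h1 _ ⟨j, hk⟩) (by
    rintro f hl
    show (fun s => f (ψ s)) ∈ K
    rw [hfψ f]
    exact hB (fun y => f (τ y)) hl _)
  intro hh η
  have h2 : (fun s => (Sum.elim (fun s : Fin (b + 1) × Bool =>
      (Fin.lastCases (motive := fun _ => Bool) (hh (Sum.inl s.2)) (fun j => η (j, s.2)) s.1))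
      (fun y => hh (Sum.inr y)) : (Fin (b + 1) × Bool) ⊕ (T × (Fin r → T)) → Bool) (ψ s)) ∈ K := by
    have h3 : (Sum.elim (fun s : Fin (b + 1) × Bool =>
      (Fin.lastCases (motive := fun _ => Bool) (hh (Sum.inl s.2)) (fun j => η (j, s.2)) s.1))
      (fun y => hh (Sum.inr y)) : (Fin (b + 1) × Bool) ⊕ (T × (Fin r → T)) → Bool) ∈
      {f | (fun s => f (ψ s)) ∈ K} := by rw [hK']; trivial
    exact h3
  rw [hfψ] at h2
  have h4 : (Sum.elim (fun s : Fin b × Bool => (Sum.elim (fun s : Fin (b + 1) × Bool =>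
      (Fin.lastCases (motive := fun _ => Bool) (hh (Sum.inl s.2)) (fun j => η (j, s.2)) s.1))
      (fun y => hh (Sum.inr y)) : (Fin (b + 1) × Bool) ⊕ (T × (Fin r → T)) → Bool)
        (Sum.inl (s.1.castSucc, s.2)))
        (fun z => (fun y => (Sum.elim (fun s : Fin (b + 1) × Bool =>
      (Fin.lastCases (motive := fun _ => Bool) (hh (Sum.inl s.2)) (fun j => η (j, s.2)) s.1))
      (fun y => hh (Sum.inr y)) : (Fin (b + 1) × Bool) ⊕ (T × (Fin r → T)) → Bool) (τ y)) (φ z)) :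
      (Fin b × Bool) ⊕ (ι → Bool) → Bool) = Sum.elim η (fun z => hh (φ z)) := by
    funext s
    cases s with
    | inl s =>
      show Fin.lastCases (motive := fun _ => Bool) (hh (Sum.inl s.2)) (fun j => η (j, s.2))
        s.1.castSucc = η s
      rw [Fin.lastCases_castSucc]
    | inr z =>
      simp only [Sum.elim_inr]
      cases φ z with
      | inl β =>
        show Fin.lastCases (motive := fun _ => Bool) (hh (Sum.inl β)) (fun j => η (j, β))
          (Fin.last b) = _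
        rw [Fin.lastCases_last]
      | inr y => rfl
  rw [h4] at h2
  exact h2

end Pool.H87G
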