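import Pool.Agent.Lib.H87G.Api

/-!
# H87G chunk G1b (size S/M)

Let lam : (ι → Bool) → Fin n with (fun z => x i (lam z)) ∈ B := {f | ∀ η, Sum.elim η f ∈ K} for
all i, h : Fin n → Bool and η : Fin b × Bool → Bool.  Show Sum.elim η (h ∘ lam) ∈ K.
If h takes only one value (h c = β for all c), then h ∘ lam is constant, so it misses any bit (ι is
nonempty) and the function is in K by h2.  Otherwise there are c_false, c_true with
h c_false = false, h c_true = true.  Let lam' = Sum.elim (fun s => if η s then c_true else c_false)
lam.  x i ∘ lam' = Sum.elim (fun s => x i (if η s then c_true else c_false)) (x i ∘ lam) ∈ K by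
the assumption on lam.  So by RC, h ∘ lam' ∈ K, and h ∘ lam' = Sum.elim η (h ∘ lam) (funext,
cases).
-/

namespace Pool.H87G

theorem G1b {g n b : ℕ} (x : Fin g → Fin n → Bool) {ι : Type} [Nonempty ι]
    (K : Set ((Fin b × Bool) ⊕ (ι → Bool) → Bool)) (hK : RC x K)
    (h2 : ∀ f, (∃ j, MissBit j (fun z => f (Sum.inr z))) → f ∈ K) :
    RC x {f : (ι → Bool) → Bool | ∀ η : Fin b × Bool → Bool, Sum.elim η f ∈ K} := by
  intro lam hlam h η
  by_cases hc : ∃ β, ∀ c, h c = β
  · obtain ⟨β, hβ⟩ := hc
    apply h2
    refine ⟨Classical.arbitrary ι, ?_⟩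
    intro y z _
    show h (lam y) = h (lam z)
    rw [hβ, hβ]
  · push Not at hc
    obtain ⟨cf, hcf⟩ := hc true
    obtain ⟨ct, hct⟩ := hc false
    have hcf' : h cf = false := by simpa using hcf
    have hct' : h ct = true := by simpa using hct
    have h1 := hK (Sum.elim (fun s => if η s = true then ct else cf) lam) (by
      intro i
      have h3 := hlam i (fun s => x i (if η s = true then ct else cf))
      have h4 : (fun z => x i ((Sum.elim (fun s => if η s = true then ct else cf) lam :
          (Fin b × Bool) ⊕ (ι → Bool) → Fin n) z)) =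
          Sum.elim (fun s => x i (if η s = true then ct else cf)) (fun z => x i (lam z)) := by
        funext s
        cases s <;> rfl
      rw [h4]
      exact h3) h
    have h5 : (fun z => h ((Sum.elim (fun s => if η s = true then ct else cf) lam :
        (Fin b × Bool) ⊕ (ι → Bool) → Fin n) z)) = Sum.elim η (fun z => h (lam z)) := by
      funext s
      cases s with
      | inl s =>
        show h (if η s = true then ct else cf) = η s
        by_cases hs : η s = true
        · rw [if_pos hs, hct', hs]
        · rw [if_neg hs, hcf']
          simp only [Bool.not_eq_true] at hs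
          rw [hs]
      | inr z => rfl
    rw [h5] at h1
    exact h1

end Pool.H87G
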