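import Pool.Agent.Lib.H87G.Api

/-!
# H87G chunk D1 (size S)

Induction on r (J arbitrary).  r = 0 : trivial.  r + 1 : (r+1) m ≤ card J, so m ≤ card J and there
is P₀ ⊆ J with card m (`Finset.exists_subset_card_eq`, in Mathlib `Finset.exists_subset_card_eq :
n ≤ s.card → ∃ t ⊆ s, t.card = n`).  card (J \ P₀) = card J - m ≥ r m; the induction hypothesis
gives P : Fin r → Finset ι for J \ P₀.  Take Fin.cons P₀ P (as a function Fin (r+1) → Finset ι);
disjointness between P₀ and P l from P l ⊆ J \ P₀.
-/

namespace Pool.H87G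

theorem D1 {ι : Type} [DecidableEq ι] (r m : ℕ) (J : Finset ι) (h : r * m ≤ J.card) :
    ∃ P : Fin r → Finset ι, (∀ l, P l ⊆ J) ∧ (∀ l, (P l).card = m) ∧
      ∀ l l', l ≠ l' → Disjoint (P l) (P l') := by
  induction r generalizing J with
  | zero =>
    exact ⟨fun l => l.elim0, fun l => l.elim0, fun l => l.elim0, fun l => l.elim0⟩
  | succ r ih =>
    have h1 : (r + 1) * m = r * m + m := by ring
    obtain ⟨P0, hP0, hP0c⟩ := Finset.exists_subset_card_eq (s := J) (n := m) (by omega)
    have h2 : (J \ P0).card = J.card - m := by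
      rw [Finset.card_sdiff_of_subset hP0, hP0c]
    obtain ⟨P, hP1, hP2, hP3⟩ := ih (J \ P0) (by omega)
    refine ⟨Fin.cons P0 P, ?_, ?_, ?_⟩
    · intro l
      refine Fin.cases ?_ (fun l => ?_) l
      · exact hP0
      · exact (hP1 l).trans Finset.sdiff_subset
    · intro l
      refine Fin.cases ?_ (fun l => ?_) l
      · exact hP0c
      · exact hP2 l
    · have h3 : ∀ l, Disjoint P0 (P l) := by
        intro l
        exact Finset.disjoint_of_subset_right (hP1 l) Finset.disjoint_sdiff
      intro l l'
      refine Fin.cases ?_ (fun l => ?_) l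
      · refine Fin.cases ?_ (fun l' => ?_) l'
        · intro h; exact absurd rfl h
        · intro _; exact h3 l'
      · refine Fin.cases ?_ (fun l' => ?_) l'
        · intro _; exact (h3 l).symm
        · intro h
          exact hP3 l l' (fun hh => h (by rw [hh]))

end Pool.H87G
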