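import Pool.Agent.Lib.H87G.Api

/-!
# H87G chunk D2 (size M)

One application of PRule.  Let T = (ι → Bool) (finite).  Classical decidability everywhere.
For a set S of indices let mask S z = fun i => if i ∈ S then z i else false.
φ z = inl (f z) if z ∉ A, and φ z = inr (mask S₀ z, fun l => mask (P l) z) if z ∈ A, where
S₀ = {i | i ∉ I ∧ ∀ l, i ∉ P l}.

(1) First hypothesis of hP T φ : let h (inl false) = h (inl true) =: c.  f' = h ∘ φ : for z ∉ A,
f' z = h (inl (f z)) = c (cases on f z).  InvOn A I f' : for y ∈ A and AgreeOff I y z : z ∈ A by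
hsI, and φ y = φ z, because mask S₀ y = mask S₀ z (S₀ is disjoint from I) and
mask (P l) y = mask (P l) z (P l is disjoint from I by hPI).  So f' ∈ B by hgood c f'.

(2) Second hypothesis: let MissCo l (h ∘ inr).  f' = h ∘ φ.  Use hstep l f' (q := fun β =>
h (inl β)) : for z ∉ A : f' z = h (inl (f z)) = q (f z).  InvOn A (P l) f' : y ∈ A,
AgreeOff (P l) y z : z ∈ A by hsP l; mask S₀ y = mask S₀ z as S₀ is disjoint from P l; for l' ≠ l,
mask (P l') y = mask (P l') z as P l' is disjoint from P l (hdisj); so h (inr ..) agree by MissCo l.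

(3) Conclusion of hP for h := Sum.elim id (fun tv => f (rec tv)), where for (t, v) :
rec (t, v) = fun i => if hi : ∃ l, i ∈ P l then v hi.choose i else t i.
Then h (φ z) = f z for all z : clear for z ∉ A.  For z ∈ A : rec (mask S₀ z, fun l => mask (P l) z)
agrees with z off I : if i ∈ P l for some l then it is mask (P l') z i with l' = choose, i ∈ P l',
so it is z i; otherwise, if i ∉ I, i ∈ S₀ and mask S₀ z i = z i.  So by hf (with y := z):
f z = f (rec ..).  Hence (fun z => h (φ z)) = f and f ∈ B.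
-/

namespace Pool.H87G

open Classical in
/-- The mask of `z` to the indices in `S`. -/
noncomputable def d2_mask {ι : Type} (S : Set ι) (z : ι → Bool) : ι → Bool :=
  fun i => if i ∈ S then z i else false

theorem d2_mask_eq {ι : Type} {S I : Set ι} (h : ∀ i ∈ S, i ∉ I) {y z : ι → Bool}
    (hyz : AgreeOff I y z) : d2_mask S y = d2_mask S z := by
  funext i
  unfold d2_mask
  by_cases hi : i ∈ S
  · rw [if_pos hi, if_pos hi]
    exact hyz i (h i hi)
  · rw [if_neg hi, if_neg hi]

open Classical in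
/-- Recover. -/
noncomputable def d2_rec {ι : Type} {r : ℕ} (P : Fin r → Finset ι)
    (tv : (ι → Bool) × (Fin r → (ι → Bool))) : ι → Bool :=
  fun i => if hi : ∃ l, i ∈ P l then tv.2 hi.choose i else tv.1 i

open Classical in
/-- The map `φ`. -/
noncomputable def d2_phi {ι : Type} {r : ℕ} (A : Set (ι → Bool)) (I : Set ι)
    (P : Fin r → Finset ι) (f : (ι → Bool) → Bool) (z : ι → Bool) :
    Bool ⊕ ((ι → Bool) × (Fin r → (ι → Bool))) :=
  if z ∈ A then Sum.inr (d2_mask {i | i ∉ I ∧ ∀ l, i ∉ P l} z,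
    fun l => d2_mask (P l : Set ι) z) else Sum.inl (f z)

theorem D2 {ι : Type} [Finite ι] {r : ℕ} (B : Set ((ι → Bool) → Bool)) (hP : PRule r B)
    (A : Set (ι → Bool)) (I : Set ι) (P : Fin r → Finset ι)
    (hdisj : ∀ l l', l ≠ l' → Disjoint (P l) (P l')) (hPI : ∀ l, ∀ i ∈ P l, i ∉ I)
    (hsP : ∀ l, Sat A (P l : Set ι)) (hsI : Sat A I) (hgood : Good B A I)
    (f : (ι → Bool) → Bool) (hf : InvOn A I f)
    (hstep : ∀ (l : Fin r) (f' : (ι → Bool) → Bool) (q : Bool → Bool),
      (∀ z, z ∉ A → f' z = q (f z)) → InvOn A (P l : Set ι) f' → f' ∈ B) :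
    f ∈ B := by
  classical
  have hphiA : ∀ z, z ∈ A → d2_phi A I P f z =
      Sum.inr (d2_mask {i | i ∉ I ∧ ∀ l, i ∉ P l} z, fun l => d2_mask (P l : Set ι) z) := by
    intro z hz
    unfold d2_phi
    rw [if_pos hz]
  have hphiN : ∀ z, z ∉ A → d2_phi A I P f z = Sum.inl (f z) := by
    intro z hz
    unfold d2_phi
    rw [if_neg hz]
  have key := hP (ι → Bool) (d2_phi A I P f) ?_ ?_
    (Sum.elim id (fun tv => f (d2_rec P tv)))
  · have heq : (fun z => (Sum.elim id (fun tv => f (d2_rec P tv)) :
        Bool ⊕ ((ι → Bool) × (Fin r → (ι → Bool))) → Bool) (d2_phi A I P f z)) = f := by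
      funext z
      by_cases hz : z ∈ A
      · rw [hphiA z hz]
        show f (d2_rec P _) = f z
        refine (hf z _ hz ?_).symm
        intro i hi
        unfold d2_rec
        by_cases hex : ∃ l, i ∈ P l
        · rw [dif_pos hex]
          have hc := hex.choose_spec
          show z i = d2_mask (P hex.choose : Set ι) z i
          unfold d2_mask
          rw [if_pos (by exact hc)]
        · rw [dif_neg hex]
          show z i = d2_mask {i | i ∉ I ∧ ∀ l, i ∉ P l} z i
          unfold d2_mask
          rw [if_pos]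
          exact ⟨hi, fun l hl => hex ⟨l, hl⟩⟩
      · rw [hphiN z hz]
        rfl
    rw [heq] at key
    exact key
  · intro h hh
    refine hgood (h (Sum.inl true)) _ ?_ ?_
    · intro z hz
      rw [hphiN z hz]
      cases f z
      · exact hh
      · rfl
    · intro y z hy hyz
      have hz : z ∈ A := hsI y z hy hyz
      have e1 : d2_mask {i | i ∉ I ∧ ∀ l, i ∉ P l} y = d2_mask {i | i ∉ I ∧ ∀ l, i ∉ P l} z :=
        d2_mask_eq (fun i hi => hi.1) hyz
      have e2 : (fun l => d2_mask (P l : Set ι) y) = fun l => d2_mask (P l : Set ι) z := by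
        funext l
        exact d2_mask_eq (fun i hi => hPI l i hi) hyz
      show h (d2_phi A I P f y) = h (d2_phi A I P f z)
      rw [hphiA y hy, hphiA z hz, e1, e2]
  · rintro h ⟨l, hl⟩
    refine hstep l _ (fun β => h (Sum.inl β)) ?_ ?_
    · intro z hz
      rw [hphiN z hz]
    · intro y z hy hyz
      have hz : z ∈ A := hsP l y z hy hyz
      have e1 : d2_mask {i | i ∉ I ∧ ∀ l, i ∉ P l} y = d2_mask {i | i ∉ I ∧ ∀ l, i ∉ P l} z :=
        d2_mask_eq (fun i hi => hi.2 l) hyz
      show h (d2_phi A I P f y) = h (d2_phi A I P f z)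
      rw [hphiA y hy, hphiA z hz, e1]
      refine hl _ _ _ ?_
      intro l' hl'
      refine d2_mask_eq (fun i hi => ?_) hyz
      intro hi'
      exact (Finset.disjoint_left.mp (hdisj l' l hl')) hi hi'

end Pool.H87G
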