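import Pool.Agent.Lib.H87G.Api
import Pool.Agent.Lib.H87G.D1
import Pool.Agent.Lib.H87G.D2

/-!
# H87G chunk D3 (size M)

Induction on t (A, I, J, f arbitrary).

t = 0 : r ^ 0 = 1 ≤ card J, so there is j ∈ J.  f y = f z whenever AgreeOff J y z (there are no
regions), in particular MissBit j f (if y, z agree off j they agree off J).  So f ∈ B by hE.

t + 1 : r ^ (t+1) = r * r ^ t ≤ card J, so D1 (classical DecidableEq ι) gives P : Fin r → Finset ι,
P l ⊆ J of card r ^ t, pairwise disjoint.  Apply D2 with the region A (Fin.last t), the index set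
I (Fin.last t) and P : hPI since P l ⊆ J; hsP : Sat A J implies Sat A (P l) (AgreeOff (P l) y z
implies AgreeOff J y z); hf : the InvOn hypothesis of the last region.
hstep : given l, f', q with f' z = q (f z) off A_last and InvOn A_last (P l) f', apply the
induction hypothesis to the regions A (castSucc s), I (castSucc s), the set P l (card r ^ t) and
f' : all hypotheses on regions restrict.  InvOn (A s) (I s) f' (s = castSucc _): for y ∈ A s,
AgreeOff (I s) y z : z ∈ A s by Sat, so y, z ∉ A_last (disjointness), and
f' y = q (f y) = q (f z) = f' z.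
Outside: let y be in no A (castSucc s), AgreeOff (P l) y z.  If y ∈ A_last : by
InvOn A_last (P l) f'.  If y ∉ A_last : y is in no region; z ∉ A_last (otherwise by Sat A_last J
applied to z, y, using that AgreeOff is symmetric, y ∈ A_last), so f' y = q (f y), f' z = q (f z)
and f y = f z by the hypothesis on f outside the regions (AgreeOff J y z).
-/

namespace Pool.H87G

theorem D3 {ι : Type} [Finite ι] {r : ℕ} (B : Set ((ι → Bool) → Bool))
    (hE : ∀ f, (∃ j, MissBit j f) → f ∈ B) (hP : PRule r B) :
    ∀ (t : ℕ) (A : Fin t → Set (ι → Bool)) (I : Fin t → Set ι) (J : Finset ι),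
      r ^ t ≤ J.card → (∀ s s', s ≠ s' → ∀ z, z ∈ A s → z ∉ A s') →
      (∀ s, ∀ i ∈ J, i ∉ I s) → (∀ s, Sat (A s) (J : Set ι)) → (∀ s, Sat (A s) (I s)) →
      (∀ s, Good B (A s) (I s)) →
      ∀ f : (ι → Bool) → Bool, (∀ s, InvOn (A s) (I s) f) →
        (∀ y z, (∀ s, y ∉ A s) → AgreeOff (J : Set ι) y z → f y = f z) → f ∈ B := by
  classical
  intro t
  induction t with
  | zero =>
    intro A I J hJ _ _ _ _ _ f _ hout
    have hJ' : 0 < J.card := by
      have : r ^ 0 = 1 := pow_zero r
      omega
    obtain ⟨j, hj⟩ := Finset.card_pos.mp hJ'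
    refine hE f ⟨j, ?_⟩
    intro y z hyz
    refine hout y z (fun s => s.elim0) ?_
    intro i hi
    refine hyz i ?_
    rintro rfl
    exact hi hj
  | succ t ih =>
    intro A I J hJ hdisj hJI hsJ hsI hgood f hf hout
    have hJ' : r * r ^ t ≤ J.card := by
      have : r ^ (t + 1) = r * r ^ t := by ring
      omega
    obtain ⟨P, hPJ, hPc, hPd⟩ := D1 r (r ^ t) J hJ'
    have hmono : ∀ l (y z : ι → Bool), AgreeOff (P l : Set ι) y z → AgreeOff (J : Set ι) y z := by
      intro l y z hyz i hi
      exact hyz i (fun h => hi (hPJ l h))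
    have hsymm : ∀ (I' : Set ι) (y z : ι → Bool), AgreeOff I' y z → AgreeOff I' z y :=
      fun I' y z h i hi => (h i hi).symm
    refine D2 B hP (A (Fin.last t)) (I (Fin.last t)) P hPd ?_ ?_ (hsI _) (hgood _) f (hf _) ?_
    · intro l i hi
      exact hJI _ i (hPJ l hi)
    · intro l y z hy hyz
      exact hsJ _ y z hy (hmono l y z hyz)
    · intro l f' q hq hinv
      refine ih (fun s => A s.castSucc) (fun s => I s.castSucc) (P l) (hPc l).ge ?_ ?_ ?_ ?_ ?_ f'
        ?_ ?_
      · intro s s' hss' z hz
        exact hdisj _ _ (fun h => hss' (Fin.castSucc_injective t h)) z hz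
      · intro s i hi
        exact hJI _ i (hPJ l hi)
      · intro s y z hy hyz
        exact hsJ _ y z hy (hmono l y z hyz)
      · intro s
        exact hsI _
      · intro s
        exact hgood _
      · intro s y z hy hyz
        have hz : z ∈ A s.castSucc := hsI _ y z hy hyz
        have hne : s.castSucc ≠ Fin.last t := (Fin.castSucc_lt_last s).ne
        have hy' : y ∉ A (Fin.last t) := hdisj _ _ hne y hy
        have hz' : z ∉ A (Fin.last t) := hdisj _ _ hne z hz
        rw [hq y hy', hq z hz', hf s.castSucc y z hy hyz]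
      · intro y z hy hyz
        by_cases hyl : y ∈ A (Fin.last t)
        · exact hinv y z hyl hyz
        · have hzl : z ∉ A (Fin.last t) := fun hz =>
            hyl (hsJ _ z y hz (hsymm _ _ _ (hmono l y z hyz)))
          rw [hq y hyl, hq z hzl]
          refine congrArg q (hout y z ?_ (hmono l y z hyz))
          intro s
          refine Fin.lastCases hyl (fun s' => hy s') s

end Pool.H87G
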