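import Pool.Agent.Lib.H87G.Api
import Pool.Agent.Lib.H87G.D3

/-!
# H87G chunk D4 (size S)

D3 for a finite index type S instead of Fin t : take t = Fintype.card S, e = Fintype.equivFin S,
and apply D3 to A ∘ e.symm, I ∘ e.symm.  All hypotheses transfer (for the disjointness use that
e.symm is injective; for the last one, y ∉ A s for all s : instantiate at e s).
-/

namespace Pool.H87G

theorem D4 {ι : Type} [Finite ι] {r : ℕ} (B : Set ((ι → Bool) → Bool))
    (hE : ∀ f, (∃ j, MissBit j f) → f ∈ B) (hP : PRule r B) {S : Type} [Fintype S]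
    (A : S → Set (ι → Bool)) (I : S → Set ι) (J : Finset ι)
    (hJ : r ^ Fintype.card S ≤ J.card) (hdisj : ∀ s s', s ≠ s' → ∀ z, z ∈ A s → z ∉ A s')
    (hJI : ∀ s, ∀ i ∈ J, i ∉ I s) (hsJ : ∀ s, Sat (A s) (J : Set ι))
    (hsI : ∀ s, Sat (A s) (I s)) (hgood : ∀ s, Good B (A s) (I s))
    (f : (ι → Bool) → Bool) (hf : ∀ s, InvOn (A s) (I s) f)
    (hout : ∀ y z, (∀ s, y ∉ A s) → AgreeOff (J : Set ι) y z → f y = f z) : f ∈ B := by
  have e := Fintype.equivFin S
  refine D3 B hE hP (Fintype.card S) (fun s => A (e.symm s)) (fun s => I (e.symm s)) J hJ ?_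
    (fun s => hJI _) (fun s => hsJ _) (fun s => hsI _) (fun s => hgood _) f (fun s => hf _) ?_
  · intro s s' hs
    exact hdisj _ _ (fun h => hs (e.symm.injective h))
  · intro y z hy
    apply hout y z
    intro s
    have := hy (e s)
    simpa using this

end Pool.H87G
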