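import Pool.Agent.Lib.H87G.Api
import Pool.Agent.Lib.H87G.D4

/-!
# H87G chunk E1 (size M)

Let P be matched by μ, and let σ, c, f be as in PFam: f z = σ (z ∘ inr) if z ∘ inl ∈ P, f z = c
otherwise.  Apply D4 with index type S = E, A i = {z | z ∘ inl ∈ P ∧ μ (z ∘ inl) = i},
I i = {Sum.inl i}, J = Finset.univ.map ⟨Sum.inr, Sum.inr_injective⟩ (card = m).
* disjointness: by the value of μ.  * i' ∈ J is inr _, so it is not inl i.
* Sat (A i) J : if y, z agree off J then y ∘ inl = z ∘ inl (inl e ∉ J).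
* Sat (A i) {inl i} : let y ∈ A i and z agree with y off {inl i}.  If z (inl i) = y (inl i) then
  z = y.  Otherwise z ∘ inl = flip i (y ∘ inl) (z (inl i) = !(y (inl i))), and by the matching
  property at e = y ∘ inl (μ e = i) : flip i e ∈ P and μ (flip i e) = i.  So z ∈ A i.
* Good B (A i) {inl i} : let f' be constant c' off A i and {inl i}-invariant on A i.  Then
  MissBit (inl i) f' : let y, z agree off inl i (so AgreeOff {inl i} y z and the symmetric one).
  If y ∈ A i : InvOn.  If y ∉ A i then z ∉ A i by Sat (symmetric), so f' y = c' = f' z.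
  Hence f' ∈ B by hE.
* InvOn (A i) {inl i} f : y ∈ A i and then z ∈ A i by Sat, so f y = σ (y ∘ inr) = σ (z ∘ inr) = f z
  (y, z agree at all inr j).
* Outside: y ∉ A i for all i, so y ∘ inl ∉ P (take i = μ (y ∘ inl)); z agrees with y off J, so
  z ∘ inl = y ∘ inl ∉ P and f y = c = f z.
-/

namespace Pool.H87G

theorem E1 {E : Type} [Fintype E] [DecidableEq E] {m r : ℕ}
    (hm : r ^ Fintype.card E ≤ m) (B : Set ((E ⊕ Fin m → Bool) → Bool))
    (hE : ∀ f, (∃ j, MissBit j f) → f ∈ B) (hP : PRule r B) : RulM (PFam B) := by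
  classical
  rintro P ⟨μ, hμ⟩ σ c f hf1 hf2
  set J : Finset (E ⊕ Fin m) := Finset.univ.map ⟨Sum.inr, Sum.inr_injective⟩ with hJ
  have hJc : J.card = m := by
    rw [hJ, Finset.card_map, Finset.card_univ, Fintype.card_fin]
  have hJl : ∀ e : E, (Sum.inl e : E ⊕ Fin m) ∉ (J : Set (E ⊕ Fin m)) := by
    intro e he
    rw [hJ] at he
    simp at he
  have hinl : ∀ y z : E ⊕ Fin m → Bool, AgreeOff (J : Set (E ⊕ Fin m)) y z →
      (fun e => y (Sum.inl e)) = (fun e => z (Sum.inl e)) := by
    intro y z h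
    funext e
    exact h _ (hJl e)
  have hsat : ∀ i : E, Sat {z : E ⊕ Fin m → Bool | (fun e => z (Sum.inl e)) ∈ P ∧
      μ (fun e => z (Sum.inl e)) = i} {Sum.inl i} := by
    intro i y z hy hyz
    obtain ⟨hy1, hy2⟩ := hy
    by_cases hzi : z (Sum.inl i) = y (Sum.inl i)
    · have hzy : z = y := by
        funext j
        by_cases hj : j = Sum.inl i
        · rw [hj, hzi]
        · exact (hyz j hj).symm
      rw [hzy]
      exact ⟨hy1, hy2⟩
    · have h1 : (fun e => z (Sum.inl e)) = flip i (fun e => y (Sum.inl e)) := by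
        funext e
        unfold flip
        by_cases he : e = i
        · rw [he, Function.update_self]
          cases h2 : z (Sum.inl i) <;> cases h3 : y (Sum.inl i) <;> simp_all
        · rw [Function.update_of_ne he]
          refine (hyz _ ?_).symm
          intro h
          exact he (Sum.inl_injective h)
      have h2 := hμ _ hy1
      rw [hy2] at h2
      refine ⟨?_, ?_⟩
      · show (fun e => z (Sum.inl e)) ∈ P
        rw [h1]
        exact h2.1
      · show μ (fun e => z (Sum.inl e)) = i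
        rw [h1]
        exact h2.2
  refine D4 B hE hP (S := E) (fun i => {z : E ⊕ Fin m → Bool | (fun e => z (Sum.inl e)) ∈ P ∧
      μ (fun e => z (Sum.inl e)) = i}) (fun i => {Sum.inl i}) J (by rw [hJc]; exact hm)
      ?_ ?_ ?_ hsat ?_ f ?_ ?_
  · rintro s s' hss' z ⟨_, h1⟩ ⟨_, h2⟩
    exact hss' (h1.symm.trans h2)
  · intro s i hi his
    rw [Set.mem_singleton_iff] at his
    rw [his] at hi
    exact hJl s hi
  · rintro s y z ⟨hy1, hy2⟩ hyz
    have h := hinl y z hyz
    refine ⟨?_, ?_⟩
    · show (fun e => z (Sum.inl e)) ∈ P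
      rw [← h]
      exact hy1
    · show μ (fun e => z (Sum.inl e)) = s
      rw [← h]
      exact hy2
  · intro i c' f' hf' hinv
    refine hE f' ⟨Sum.inl i, ?_⟩
    intro y z hyz
    by_cases hy : y ∈ {z : E ⊕ Fin m → Bool | (fun e => z (Sum.inl e)) ∈ P ∧
      μ (fun e => z (Sum.inl e)) = i}
    · exact hinv y z hy (fun j hj => hyz j hj)
    · have hz : z ∉ {z : E ⊕ Fin m → Bool | (fun e => z (Sum.inl e)) ∈ P ∧
          μ (fun e => z (Sum.inl e)) = i} :=
        fun hz => hy (hsat i z y hz (fun j hj => (hyz j hj).symm))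
      rw [hf' y hy, hf' z hz]
  · intro i y z hy hyz
    have hz := hsat i y z hy hyz
    rw [hf1 y hy.1, hf1 z hz.1]
    refine congrArg σ ?_
    funext j
    exact hyz _ (by simp)
  · intro y z hy hyz
    have h := hinl y z hyz
    have hyP : (fun e => y (Sum.inl e)) ∉ P := by
      intro hyP
      exact hy (μ (fun e => y (Sum.inl e))) ⟨hyP, rfl⟩
    have hzP : (fun e => z (Sum.inl e)) ∉ P := by
      rw [← h]
      exact hyP
    rw [hf2 y hyP, hf2 z hzP]

end Pool.H87G
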