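import Pool.Agent.Lib.H87G.Api

/-!
# H87G chunk E2 (size S/M)

Let κ : (E → Bool) → Fin n with P_i := {e | x i (κ e) ≠ x i c0} ∈ PFam B for all i, D a set of
columns with c0 ∉ D, and P = {e | κ e ∈ D}.  To show P ∈ PFam B, let σ, c, f be given with
f z = σ (z ∘ inr) if z ∘ inl ∈ P and f z = c if z ∘ inl ∉ P.
Define lam z = if σ (z ∘ inr) = c then c0 else κ (z ∘ inl).  Each row is in B : by the definition
of P_i ∈ PFam B with σ_i w = if σ w = c then x i c0 else !(x i c0) and c_i = x i c0.
By hB, for h c' = if c' ∈ D then !c else c (classical) : h ∘ lam ∈ B.  And h (lam z) = f z.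
-/

namespace Pool.H87G

theorem E2 {E : Type} {m g n : ℕ} (x : Fin g → Fin n → Bool) (c0 : Fin n)
    (B : Set ((E ⊕ Fin m → Bool) → Bool)) (hB : RC x B) : RulR x c0 (PFam B) := by
  classical
  intro κ hκ D hD σ c f hf1 hf2
  have h1 := hB (fun z => if σ (fun j => z (Sum.inr j)) = c then c0
      else κ (fun e => z (Sum.inl e))) (by
    intro i
    refine hκ i (fun w => if σ w = c then x i c0 else !(x i c0)) (x i c0) _ ?_ ?_
    · intro z hz
      have hz' : x i (κ (fun e => z (Sum.inl e))) ≠ x i c0 := hz
      show x i (if σ (fun j => z (Sum.inr j)) = c then c0 else κ (fun e => z (Sum.inl e))) =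
        if σ (fun j => z (Sum.inr j)) = c then x i c0 else !(x i c0)
      by_cases h : σ (fun j => z (Sum.inr j)) = c
      · rw [if_pos h, if_pos h]
      · rw [if_neg h, if_neg h]
        revert hz'
        cases x i (κ (fun e => z (Sum.inl e))) <;> cases x i c0 <;> simp
    · intro z hz
      have hz' : x i (κ (fun e => z (Sum.inl e))) = x i c0 := by
        by_contra h
        exact hz h
      show x i (if σ (fun j => z (Sum.inr j)) = c then c0 else κ (fun e => z (Sum.inl e))) =
        x i c0
      by_cases h : σ (fun j => z (Sum.inr j)) = c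
      · rw [if_pos h]
      · rw [if_neg h, hz'])
    (fun c' => if c' ∈ D then !c else c)
  have h2 : (fun z : E ⊕ Fin m → Bool => (if (if σ (fun j => z (Sum.inr j)) = c then c0
      else κ (fun e => z (Sum.inl e))) ∈ D then !c else c)) = f := by
    funext z
    by_cases h : σ (fun j => z (Sum.inr j)) = c
    · rw [if_pos h, if_neg hD]
      by_cases h3 : (fun e => z (Sum.inl e)) ∈ {e | κ e ∈ D}
      · rw [hf1 z h3, h]
      · rw [hf2 z h3]
    · rw [if_neg h]
      by_cases h3 : (fun e => z (Sum.inl e)) ∈ {e | κ e ∈ D}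
      · rw [hf1 z h3, if_pos (show κ (fun e => z (Sum.inl e)) ∈ D from h3)]
        revert h
        cases σ (fun j => z (Sum.inr j)) <;> cases c <;> simp
      · rw [hf2 z h3, if_neg (show ¬ κ (fun e => z (Sum.inl e)) ∈ D from h3)]
  rw [← h2]
  exact h1

end Pool.H87G
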