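import Pool.Agent.Lib.H87G.Api

/-!
# H87G chunk E3 (size S/M)

Translation of the cube by a.  Write τ e = fun i => xor (e i) (a i); τ (τ e) = e and
τ (flip i e) = flip i (τ e) (funext j, cases j = i).
RulM : if P is matched by μ then τ⁻¹ P = {e | τ e ∈ P} is matched by μ ∘ τ : for τ e ∈ P,
τ (flip (μ (τ e)) e) = flip (μ (τ e)) (τ e) ∈ P and μ of it is μ (τ e).  So τ⁻¹ P ∈ Q by hM.
RulR : let κ with {e | x i (κ e) ≠ x i c0} in the translated family, i.e.
{e | x i (κ (τ e)) ≠ x i c0} ∈ Q.  Apply hR to κ ∘ τ : {e | κ (τ e) ∈ D} ∈ Q, which is the claim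
(definitional unfolding).
-/

namespace Pool.H87G

theorem e3_flip {E : Type} [DecidableEq E] (a e : E → Bool) (i : E) :
    (fun j => xor (flip i e j) (a j)) = flip i (fun j => xor (e j) (a j)) := by
  funext j
  unfold flip
  by_cases h : j = i
  · subst h
    simp
  · simp [Function.update_of_ne h]

theorem E3 {E : Type} [DecidableEq E] {g n : ℕ} (x : Fin g → Fin n → Bool) (c0 : Fin n)
    (Q : Set (Set (E → Bool))) (hM : RulM Q) (hR : RulR x c0 Q) (a : E → Bool) :
    RulM {P : Set (E → Bool) | {e : E → Bool | (fun i => xor (e i) (a i)) ∈ P} ∈ Q} ∧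
    RulR x c0 {P : Set (E → Bool) | {e : E → Bool | (fun i => xor (e i) (a i)) ∈ P} ∈ Q} := by
  refine ⟨?_, ?_⟩
  · rintro P ⟨μ, hμ⟩
    apply hM
    refine ⟨fun e => μ (fun i => xor (e i) (a i)), ?_⟩
    intro e he
    have h1 := hμ _ he
    refine ⟨?_, ?_⟩
    · show (fun j => xor (flip (μ (fun i => xor (e i) (a i))) e j) (a j)) ∈ P
      rw [e3_flip]
      exact h1.1
    · show μ (fun j => xor (flip (μ (fun i => xor (e i) (a i))) e j) (a j)) = _
      rw [e3_flip]
      exact h1.2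
  · intro κ hκ D hD
    exact hR (fun e => κ (fun i => xor (e i) (a i))) (fun i => hκ i) D hD

end Pool.H87G
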