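import Pool.Agent.Lib.H87G.Api
import Pool.Agent.Lib.H87G.D4

/-!
# H87G chunk E4 (size M)

Let f : (E ⊕ Fin m → Bool) → Bool.  Apply D4 with the index type S = (E → Bool)
(card = 2 ^ card E : `Fintype.card_fun`/`Fintype.card_pi`, `Fintype.card_bool`; use classical
DecidableEq E to have the Fintype instance; careful that the instance used in the statement is
irrelevant, rewrite with `Fintype.card_fun`), A a = {z | (fun e => z (inl e)) = a}, I a = ∅,
J = Finset.univ.map ⟨Sum.inr, Sum.inr_injective⟩ (card = m).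
* disjoint: clear.  * J vs ∅ : clear.  * Sat (A a) J : agreeing off J gives the same z ∘ inl.
* Sat (A a) ∅ : AgreeOff ∅ y z implies y = z.
* Good B (A a) ∅ : let f' = c' off A a.  Use h a : {a} ∈ PFam B with σ w = f' (Sum.elim a w) and
  c' : if z ∘ inl ∈ {a} then z = Sum.elim a (z ∘ inr), so f' z = σ (z ∘ inr); if z ∘ inl ∉ {a}
  then z ∉ A a and f' z = c'.
* InvOn (A a) ∅ f : y = z.
* outside: every y is in A (y ∘ inl), contradiction.
-/

namespace Pool.H87G

theorem E4 {E : Type} [Fintype E] {m r : ℕ} (hm : r ^ (2 ^ Fintype.card E) ≤ m)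
    (B : Set ((E ⊕ Fin m → Bool) → Bool)) (hE : ∀ f, (∃ j, MissBit j f) → f ∈ B)
    (hP : PRule r B) (h : ∀ a : E → Bool, {a} ∈ PFam B) : B = Set.univ := by
  classical
  refine Set.eq_univ_of_forall ?_
  intro f
  set J : Finset (E ⊕ Fin m) := Finset.univ.map ⟨Sum.inr, Sum.inr_injective⟩ with hJ
  have hJc : J.card = m := by
    rw [hJ, Finset.card_map, Finset.card_univ, Fintype.card_fin]
  have hJl : ∀ e : E, (Sum.inl e : E ⊕ Fin m) ∉ (J : Set (E ⊕ Fin m)) := by
    intro e he
    rw [hJ] at he
    simp at he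
  have hcard : Fintype.card (E → Bool) = 2 ^ Fintype.card E := by
    rw [Fintype.card_fun, Fintype.card_bool]
  have hemp : ∀ y z : E ⊕ Fin m → Bool, AgreeOff (∅ : Set (E ⊕ Fin m)) y z → y = z := by
    intro y z hyz
    funext i
    exact hyz i (Set.notMem_empty i)
  refine D4 B hE hP (S := E → Bool) (fun a => {z : E ⊕ Fin m → Bool | (fun e => z (Sum.inl e)) = a})
    (fun _ => ∅) J (by rw [hJc, hcard]; exact hm) ?_ ?_ ?_ ?_ ?_ f ?_ ?_
  · intro s s' hss' z h1 h2
    have h1' : (fun e => z (Sum.inl e)) = s := h1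
    have h2' : (fun e => z (Sum.inl e)) = s' := h2
    exact hss' (h1'.symm.trans h2')
  · intro s i _ hi
    exact hi
  · intro s y z hy hyz
    have h1 : (fun e => y (Sum.inl e)) = s := hy
    show (fun e => z (Sum.inl e)) = s
    rw [← h1]
    funext e
    exact (hyz _ (hJl e)).symm
  · intro s y z hy hyz
    rw [← hemp y z hyz]
    exact hy
  · intro a c' f' hf' _
    refine h a (fun w => f' (Sum.elim a w)) c' f' ?_ ?_
    · intro z hz
      have hz' : (fun e => z (Sum.inl e)) = a := hz
      show f' z = f' (Sum.elim a (fun j => z (Sum.inr j)))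
      refine congrArg f' ?_
      funext i
      rcases i with e | j
      · exact congrFun hz' e
      · rfl
    · intro z hz
      exact hf' z hz
  · intro s y z _ hyz
    rw [hemp y z hyz]
  · intro y z hy _
    exact absurd rfl (hy (fun e => y (Sum.inl e)))

end Pool.H87G
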