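import Pool.Agent.Lib.H87G.CT
import Pool.Agent.Lib.H87G.E1
import Pool.Agent.Lib.H87G.E2
import Pool.Agent.Lib.H87G.E3
import Pool.Agent.Lib.H87G.E4

/-!
# H87G: every family with the three rules is everything (assembly)
-/

namespace Pool.H87G

theorem G2 {g n : ℕ} (hg : 1 ≤ g) (hn : 2 * g + 1 ≤ n) (x : Fin g → Fin n → Bool) (r : ℕ)
    (hr : 1 ≤ r) : ∃ k m : ℕ, 1 ≤ m ∧
      ∀ B : Set (((Fin k ⊕ Fin k) ⊕ Fin m → Bool) → Bool), (∀ f, (∃ j, MissBit j f) → f ∈ B) →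
        RC x B → PRule r B → B = Set.univ := by
  obtain ⟨c0, k, hk⟩ := CT hg hn x
  have hpos : 1 ≤ r ^ (2 ^ Fintype.card (Fin k ⊕ Fin k)) := Nat.one_le_pow _ _ hr
  refine ⟨k, r ^ (2 ^ Fintype.card (Fin k ⊕ Fin k)), hpos, fun B hE hRC hP => ?_⟩
  have hle : r ^ Fintype.card (Fin k ⊕ Fin k) ≤ r ^ (2 ^ Fintype.card (Fin k ⊕ Fin k)) :=
    Nat.pow_le_pow_right hr (Nat.lt_two_pow_self).le
  have hM : RulM (PFam B) := E1 hle B hE hP
  have hR : RulR x c0 (PFam B) := E2 x c0 B hRC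
  refine E4 le_rfl B hE hP (fun a => ?_)
  obtain ⟨hM', hR'⟩ := E3 x c0 (PFam B) hM hR a
  have h1 := hk _ hM' hR'
  have h2 : {e : Fin k ⊕ Fin k → Bool | (fun i => xor (e i) (a i)) ∈
      ({(fun _ => false : Fin k ⊕ Fin k → Bool)} : Set (Fin k ⊕ Fin k → Bool))} = {a} := by
    ext e
    simp only [Set.mem_singleton_iff, Set.mem_setOf_eq, funext_iff]
    constructor
    · intro h i
      have := h i
      cases h1 : e i <;> cases h2 : a i <;> simp_all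
    · intro h i
      rw [h i]; simp
  have h3 : {e : Fin k ⊕ Fin k → Bool | (fun i => xor (e i) (a i)) ∈
      ({(fun _ => false : Fin k ⊕ Fin k → Bool)} : Set (Fin k ⊕ Fin k → Bool))} ∈ PFam B := h1
  rw [h2] at h3
  exact h3

end Pool.H87G
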