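import Pool.Agent.Lib.H87G.Api

/-!
# H87G chunk G3 (size S/M)

Transport along e : ι ≃ Fin N.  Let K be as in ValBin x b (Fin N).  Let
ψ : (Fin b × Bool) ⊕ (Fin N → Bool) → (Fin b × Bool) ⊕ (ι → Bool), ψ = Sum.map id (fun z i => z (e i)),
a bijection with inverse ψ' = Sum.map id (fun z j => z (e.symm j)).
K' = {f | (fun s => f (ψ s)) ∈ K} : RC by `rc_pull`; the first condition is clear; if z ↦ f (inr z)
misses the bit j then z ↦ f (inr (z ∘ e)) misses the bit e j (if z, z' agree off e j then z ∘ e,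
z' ∘ e agree off j).  So K' = univ by h.  For f on the Fin N side, f ∘ ψ' ∈ K' = univ, i.e.
f ∘ ψ' ∘ ψ = f ∈ K.
-/

namespace Pool.H87G

theorem G3 {g n b N : ℕ} (x : Fin g → Fin n → Bool) {ι : Type} (e : ι ≃ Fin N)
    (h : ValBin x b ι) : ValBin x b (Fin N) := by
  intro K hK h1 h2
  have key : {f : (Fin b × Bool) ⊕ (ι → Bool) → Bool |
      (fun s => f (Sum.map id (fun (z : Fin N → Bool) (i : ι) => z (e i)) s)) ∈ K} = Set.univ := by
    apply h
    · exact rc_pull _ hK
    · rintro f ⟨k, hk⟩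
      exact h1 _ ⟨k, hk⟩
    · rintro f ⟨j, hj⟩
      refine h2 _ ⟨e j, ?_⟩
      intro y z hyz
      apply hj
      intro i hi
      exact hyz (e i) (fun h => hi (e.injective h))
  ext f
  refine ⟨fun _ => trivial, fun _ => ?_⟩
  have h3 : (fun s => f (Sum.map id (fun (z : ι → Bool) (j : Fin N) => z (e.symm j)) s)) ∈
      {f : (Fin b × Bool) ⊕ (ι → Bool) → Bool |
      (fun s => f (Sum.map id (fun (z : Fin N → Bool) (i : ι) => z (e i)) s)) ∈ K} := by
    rw [key]; trivial
  have h4 : (fun s => f (Sum.map id (fun (z : ι → Bool) (j : Fin N) => z (e.symm j))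
      (Sum.map id (fun (z : Fin N → Bool) (i : ι) => z (e i)) s))) ∈ K := h3
  have h5 : (fun s => f (Sum.map id (fun (z : ι → Bool) (j : Fin N) => z (e.symm j))
      (Sum.map id (fun (z : Fin N → Bool) (i : ι) => z (e i)) s))) = f := by
    funext s
    rcases s with s | z
    · rfl
    · simp only [Sum.map_inr, Equiv.apply_symm_apply]
  rwa [h5] at h4

end Pool.H87G
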