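import Pool.Agent.Lib.H87G.Api
import Pool.Agent.Lib.H87G.C1
import Pool.Agent.Lib.H87G.C2a

/-!
# H87G chunk H1 (size M)

By C2a (b = 0, X = (Fin D → Bool)) applied to K' = {f : (Fin 0 × Bool) ⊕ X → Bool |
(fun z => f (inr z)) ∈ K} (RC by `rc_pull` along inr; the hypothesis h1 of C2a is vacuous since
Fin 0 is empty), the family W = {f | ∀ η, Sum.elim η f ∈ K'} satisfies LRule N; W = K
(Sum.elim η f ∘ inr = f; for ⊆ use any η, e.g. fun _ => false).
Let F0 = {f | ∃ j : Fin D, f = fun y => y j}; nonempty as D ≥ 1.  PiProp N K F0 : v l = (y ↦ y (s l))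
for some s : Fin N → Fin D (choose), so this is hmem.  C1 (hN) with m = D, w j = (y ↦ y j) :
(fun y => G (fun j => y j)) = G ∈ K for every G : (Fin D → Bool) → Bool.
-/

namespace Pool.H87G

theorem H1 {g n N D : ℕ} (x : Fin g → Fin n → Bool) (hN : 1 ≤ N) (hD : 1 ≤ D)
    (h : ValBin x 0 (Fin N)) (K : Set ((Fin D → Bool) → Bool)) (hK : RC x K)
    (hmem : ∀ (s : Fin N → Fin D) (G : (Fin N → Bool) → Bool), (∃ j, MissBit j G) →
      (fun y : Fin D → Bool => G (fun l => y (s l))) ∈ K) : K = Set.univ := by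
  have hLR : LRule N K := by
    have hK' : RC x {f : (Fin 0 × Bool) ⊕ (Fin D → Bool) → Bool | (fun z => f (Sum.inr z)) ∈ K} :=
      rc_pull Sum.inr hK
    have h2 := C2a x h _ hK' (fun f hf => by
      obtain ⟨k, _⟩ := hf
      exact k.elim0)
    have e : {f : (Fin D → Bool) → Bool | ∀ η : Fin 0 × Bool → Bool, Sum.elim η f ∈
        {f : (Fin 0 × Bool) ⊕ (Fin D → Bool) → Bool | (fun z => f (Sum.inr z)) ∈ K}} = K := by
      ext f
      constructor
      · intro hf
        exact hf (fun _ => false)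
      · intro hf η
        exact hf
    rwa [e] at h2
  have h0 : PiProp N K {f : (Fin D → Bool) → Bool | ∃ j : Fin D, f = fun y => y j} := by
    intro v hv G hG
    choose s hs using hv
    have e : (fun z => G (fun l => v l z)) = (fun y : Fin D → Bool => G (fun l => y (s l))) := by
      funext z
      congr 1
      funext l
      rw [hs l]
    rw [e]
    exact hmem s G hG
  ext G
  refine ⟨fun _ => trivial, fun _ => ?_⟩
  have hne : ({f : (Fin D → Bool) → Bool | ∃ j : Fin D, f = fun y => y j}).Nonempty :=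
    ⟨fun y => y ⟨0, hD⟩, ⟨0, hD⟩, rfl⟩
  exact C1 hN K hLR _ hne h0 D (fun j y => y j) (fun j => ⟨j, rfl⟩) G

end Pool.H87G
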