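import Pool.Agent.Lib.H87G.Api
import Pool.Agent.Lib.H87G.H1

/-!
# H87G chunk H2 (size M)

Let D = Nat.clog 2 n' (≥ 1 as n' ≥ 2), n' ≤ 2 ^ D (`Nat.le_pow_clog`), so there is an injection
code : Fin n' → (Fin D → Bool) (`Function.Embedding.nonempty_of_card_le`, card (Fin D → Bool) =
2 ^ D).  Let X : Finset (Fin n' → Bool) be the image of the Finset univ of
(Fin N → Fin D) × ((Fin N → Bool) → Bool) under (s, G) ↦ (fun t => G (fun l => code t (s l))).
card X ≤ card of the product = D ^ N * 2 ^ (2 ^ N) (`Finset.card_image_le`, `Fintype.card_prod`,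
`Fintype.card_fun`).
X generates: let S be closed and contain X.  K = {f : (Fin D → Bool) → Bool | (fun t => f (code t)) ∈ S}
is closed (`closed_pull`), so RC x K (`rc_of_closed hx`).  K contains all y ↦ G (fun l => y (s l)).  By H1
K = univ.  For f' : Fin n' → Bool : f' = f ∘ code with f = Function.extend code f' (fun _ => false),
so f' ∈ S.
Hence d F n' ≤ card X (`Nat.sInf_le`) ≤ D ^ N * 2 ^ (2 ^ N).
-/

namespace Pool.H87G

theorem H2 (F : Set (POp Bool)) {g n N : ℕ} (x : Fin g → Fin n → Bool)
    (hx : Generates F (Set.range x)) (hN : 1 ≤ N) (h : ValBin x 0 (Fin N)) (n' : ℕ)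
    (hn' : 2 ≤ n') : d F n' ≤ (Nat.clog 2 n') ^ N * 2 ^ (2 ^ N) := by
  classical
  have hD : 1 ≤ Nat.clog 2 n' := Nat.clog_pos (by norm_num) hn'
  have hle : n' ≤ 2 ^ Nat.clog 2 n' := Nat.le_pow_clog (by norm_num) n'
  generalize Nat.clog 2 n' = D at hD hle
  obtain ⟨code⟩ : Nonempty (Fin n' ↪ (Fin D → Bool)) := by
    apply Function.Embedding.nonempty_of_card_le
    simpa using hle
  let X : Finset (Fin n' → Bool) := (Finset.univ : Finset ((Fin N → Fin D) × ((Fin N → Bool) → Bool))).image
    (fun p t => p.2 (fun l => code t (p.1 l)))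
  have hcard : X.card ≤ D ^ N * 2 ^ (2 ^ N) := by
    refine Finset.card_image_le.trans ?_
    simp
  have hgen : Generates F (X : Set (Fin n' → Bool)) := by
    intro S hS hXS
    have hK : RC x {f : (Fin D → Bool) → Bool | (fun t => f (code t)) ∈ S} :=
      rc_of_closed hx (closed_pull (fun t => code t) hS)
    have h1 := H1 x hN hD h _ hK (by
      intro s G _
      refine hXS ?_
      simp only [X, Finset.coe_image, Finset.coe_univ, Set.image_univ]
      exact ⟨(s, G), rfl⟩)
    ext f'
    refine ⟨fun _ => trivial, fun _ => ?_⟩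
    have h2 : Function.extend code f' (fun _ => false) ∈
        {f : (Fin D → Bool) → Bool | (fun t => f (code t)) ∈ S} := by
      rw [h1]
      trivial
    have e : (fun t => Function.extend code f' (fun _ => false) (code t)) = f' := by
      funext t
      exact code.injective.extend_apply _ _ _
    have h3 : (fun t => Function.extend code f' (fun _ => false) (code t)) ∈ S := h2
    rwa [e] at h3
  have hmem : X.card ∈ {m | ∃ X : Finset (Fin n' → Bool), X.card = m ∧
      Generates F (X : Set (Fin n' → Bool))} := ⟨X, rfl, hgen⟩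
  exact (Nat.sInf_le hmem).trans hcard

end Pool.H87G
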