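import Pool.Agent.Lib.H87G.Api

/-!
# H87G chunk Z1 (size M)

Transport of structure along e : A ≃ Bool.  F' is the image of F under f ↦ f' where
f'.ar = f.ar, f'.dom = {v | (fun i => e.symm (v i)) ∈ f.dom},
f'.fn v = e (f.fn (fun i => e.symm (v i))).
For S ⊆ A^n let S' = {h : Fin n → Bool | (fun t => e.symm (h t)) ∈ S}; S is closed under F iff S' is
closed under F' (unfold; `Equiv.symm_apply_apply`), and X generates A^n for F iff its image
e ∘ X generates for F' (image under the bijection h ↦ e ∘ h of functions).
A Finset X of functions Fin n → A corresponds to X.image (fun h t => e (h t)) of the same card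
(injective) and conversely.  So the two sets of cardinalities are equal and d F n = d F' n.
(A convenient way: prove the lemma z1_aux: for any equivalence e : A ≃ B of types and F' as above
and every Finset X generating for F, the image generates for F'; then apply it to e and to e.symm
after checking that (F')' = F, or prove both directions directly.)
-/

namespace Pool.H87G

/-- The transported operation. -/
def z1_op {A : Type*} {B : Type*} (e : A ≃ B) (f : POp A) : POp B where
  ar := f.ar
  dom := {v | (fun i => e.symm (v i)) ∈ f.dom}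
  fn := fun v => e (f.fn (fun i => e.symm (v i)))

theorem z1_op_symm {A : Type*} {B : Type*} (e : A ≃ B) (f : POp A) :
    z1_op e.symm (z1_op e f) = f := by
  cases f with
  | mk ar dom fn =>
    have h1 : ({v : Fin ar → A | (fun i => e (v i)) ∈ {v : Fin ar → B |
        (fun i => e.symm (v i)) ∈ dom}}) = dom := by
      ext v
      show (fun i => e.symm (e (v i))) ∈ dom ↔ v ∈ dom
      simp only [Equiv.symm_apply_apply]
    simp only [z1_op, Equiv.symm_symm, Equiv.symm_apply_apply]
    exact congrArg (fun D => POp.mk ar D fn) h1

/-- The transported tuples. -/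
def z1_emb {A : Type*} {B : Type*} (e : A ≃ B) (n : ℕ) : (Fin n → A) ↪ (Fin n → B) where
  toFun := fun h t => e (h t)
  inj' := by
    intro h h' heq
    funext t
    exact e.injective (congrFun heq t)

theorem z1_gen {A : Type*} {B : Type*} (e : A ≃ B) (F : Set (POp A)) {n : ℕ}
    (X : Set (Fin n → A)) (h : Generates F X) :
    Generates (z1_op e '' F) (z1_emb e n '' X) := by
  intro S hS hXS
  have h1 := h {h' | (fun t => e (h' t)) ∈ S} ?_ ?_
  · ext y
    simp only [Set.mem_univ, iff_true]
    have h2 : (fun t => e.symm (y t)) ∈ {h' : Fin n → A | (fun t => e (h' t)) ∈ S} := by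
      rw [h1]
      exact Set.mem_univ _
    have h3 : (fun t => e (e.symm (y t))) ∈ S := h2
    simpa using h3
  · intro f hf s hs hd
    have h2 := hS (z1_op e f) ⟨f, hf, rfl⟩ (fun i t => e (s i t)) (fun i => hs i) ?_
    · have h3 : (fun t => e (f.fn (fun i => e.symm (e (s i t))))) ∈ S := h2
      show (fun t => e (f.fn (fun i => s i t))) ∈ S
      simpa using h3
    · intro t
      show (fun i => e.symm (e (s i t))) ∈ f.dom
      simpa using hd t
  · intro x hx
    exact hXS ⟨x, hx, rfl⟩

theorem z1_sub {A : Type*} {B : Type*} (e : A ≃ B) (F : Set (POp A)) (n m : ℕ)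
    (h : ∃ X : Finset (Fin n → A), X.card = m ∧ Generates F (X : Set (Fin n → A))) :
    ∃ X : Finset (Fin n → B), X.card = m ∧
      Generates (z1_op e '' F) (X : Set (Fin n → B)) := by
  obtain ⟨X, hX, hg⟩ := h
  refine ⟨X.map (z1_emb e n), by rw [Finset.card_map, hX], ?_⟩
  rw [Finset.coe_map]
  exact z1_gen e F _ hg

theorem Z1 {A : Type*} (e : A ≃ Bool) (F : Set (POp A)) :
    ∃ F' : Set (POp Bool), ∀ n, d F n = d F' n := by
  refine ⟨z1_op e '' F, ?_⟩
  intro n
  unfold d
  refine congrArg sInf ?_
  ext m
  constructor
  · intro h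
    exact z1_sub e F n m h
  · intro h
    have h1 := z1_sub e.symm (z1_op e '' F) n m h
    have h2 : z1_op e.symm '' (z1_op e '' F) = F := by
      rw [Set.image_image]
      simp only [z1_op_symm, Set.image_id']
    rw [h2] at h1
    exact h1

end Pool.H87G
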