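import Pool.Agent.Lib.H87G.A2
import Pool.Agent.Lib.H87G.B2
import Pool.Agent.Lib.H87G.C2
import Pool.Agent.Lib.H87G.G1a
import Pool.Agent.Lib.H87G.G1b
import Pool.Agent.Lib.H87G.G2
import Pool.Agent.Lib.H87G.G3
import Pool.Agent.Lib.H87G.H2
import Pool.Agent.Lib.H87G.H3
import Pool.Agent.Lib.H87G.Z1

/-!
# H87G: the gap theorem (assembly)
-/

namespace Pool.H87G

/-- One step of the descent. -/
theorem G4 {g n : ℕ} (hg : 1 ≤ g) (hn : 2 * g + 1 ≤ n) (x : Fin g → Fin n → Bool) (b r : ℕ)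
    (hr : 1 ≤ r) (h : ValBin x (b + 1) (Fin r)) : ∃ N, 1 ≤ N ∧ ValBin x b (Fin N) := by
  obtain ⟨k, m, hm, hB⟩ := G2 hg hn x r hr
  have hgen := C2 x hr h
  have : Nonempty (Fin m) := ⟨⟨0, hm⟩⟩
  have h1 : ValBin x b ((Fin k ⊕ Fin k) ⊕ Fin m) := by
    intro K hK hK1 hK2
    have h2 := hB {f : ((Fin k ⊕ Fin k) ⊕ Fin m → Bool) → Bool |
        ∀ η : Fin b × Bool → Bool, Sum.elim η f ∈ K} (by
        rintro f ⟨j, hj⟩ η
        exact hK2 _ ⟨j, hj⟩) (G1b x K hK hK2) (G1a x hgen K hK hK1)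
    apply Set.eq_univ_of_forall
    intro f
    have h3 : (fun z => f (Sum.inr z)) ∈ {f : ((Fin k ⊕ Fin k) ⊕ Fin m → Bool) → Bool |
        ∀ η : Fin b × Bool → Bool, Sum.elim η f ∈ K} := by
      rw [h2]; trivial
    have h4 := h3 (fun s => f (Sum.inl s))
    have h5 : (Sum.elim (fun s => f (Sum.inl s)) (fun z => f (Sum.inr z)) :
        (Fin b × Bool) ⊕ ((Fin k ⊕ Fin k) ⊕ Fin m → Bool) → Bool) = f := by
      funext s
      cases s <;> rfl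
    rw [h5] at h4
    exact h4
  refine ⟨Fintype.card ((Fin k ⊕ Fin k) ⊕ Fin m), ?_, G3 x (Fintype.equivFin _) h1⟩
  simp only [Fintype.card_sum, Fintype.card_fin]
  omega

theorem G5 {b n : ℕ} (x : Fin (b + 1) → Fin n → Bool) (hn : 2 * (b + 1) + 1 ≤ n) :
    ∃ N, 1 ≤ N ∧ ValBin x 0 (Fin N) := by
  have key : ∀ j, j ≤ b → ∃ N, 1 ≤ N ∧ ValBin x (b - j) (Fin N) := by
    intro j
    induction j with
    | zero => intro _; exact ⟨1, le_rfl, B2 x hn⟩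
    | succ j ih =>
      intro hj
      obtain ⟨N, hN, h⟩ := ih (by omega)
      have h1 : b - j = (b - (j + 1)) + 1 := by omega
      rw [h1] at h
      exact G4 (by omega) hn x _ N hN h
  have := key b le_rfl
  rwa [Nat.sub_self] at this

/-- The gap theorem on `{0, 1}`. -/
theorem main_bool (F : Set (POp Bool)) :
    (∀ n, 3 ≤ n → n ≤ 2 * d F n) ∨
    (∃ C c : ℕ, ∀ n, 2 ≤ n → d F n ≤ C * (Nat.log 2 n) ^ c) := by
  by_cases h : ∀ n, 3 ≤ n → n ≤ 2 * d F n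
  · exact Or.inl h
  · right
    push Not at h
    obtain ⟨n, hn, hd⟩ := h
    obtain ⟨g, x, hg, hgn, hx⟩ := A2 F n hn hd
    obtain ⟨b, rfl⟩ : ∃ b, g = b + 1 := ⟨g - 1, by omega⟩
    obtain ⟨N, hN, hval⟩ := G5 x hgn
    refine ⟨2 ^ N * 2 ^ (2 ^ N), N, fun n' hn' => ?_⟩
    calc d F n' ≤ (Nat.clog 2 n') ^ N * 2 ^ (2 ^ N) := H2 F x hx hN hval n' hn'
      _ ≤ (2 * Nat.log 2 n') ^ N * 2 ^ (2 ^ N) :=
        Nat.mul_le_mul_right _ (Nat.pow_le_pow_left (H3 n' hn') N)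
      _ = 2 ^ N * 2 ^ (2 ^ N) * (Nat.log 2 n') ^ N := by rw [mul_pow]; ring

/-- The gap theorem for 2-element partial algebras. -/
theorem main {A : Type*} (hA : Nat.card A = 2) (F : Set (POp A)) :
    (∀ n, 3 ≤ n → n ≤ 2 * d F n) ∨
    (∃ C c : ℕ, ∀ n, 2 ≤ n → d F n ≤ C * (Nat.log 2 n) ^ c) := by
  have : Finite A := Nat.finite_of_card_ne_zero (by omega)
  have e : A ≃ Bool := (Finite.equivFinOfCardEq hA).trans finTwoEquiv
  obtain ⟨F', hF'⟩ := Z1 e F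
  simp only [hF']
  exact main_bool F'

end Pool.H87G
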