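import Pool.Agent.Lib.H87G.Api

/-!
# H87G chunk A2 (size S/M)

Let m = d F n.  The set {m | exists X : Finset with card m and Generates F X} is nonempty (take
X = Finset.univ : Generates F univ is clear from `univ ⊆ S`), so by `Nat.sInf_mem` there is a
Finset X with card X = d F n and Generates F X.

* If d F n = 0 : then X = ∅ generates.  Take g = 1 and x = fun _ _ => false; range x ⊇ ∅, and
  Generates is monotone in X (a closed S containing range x contains X).  2 * 1 + 1 = 3 ≤ n.
* If d F n ≥ 1 : take g = d F n = X.card and x i = the i-th element of X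
  (`x i = ((X.equivFinOfCardEq h).symm i).1`), range x = X; 2 g < n gives 2 g + 1 ≤ n.
-/

namespace Pool.H87G

theorem A2 (F : Set (POp Bool)) (n : ℕ) (hn : 3 ≤ n) (hd : 2 * d F n < n) :
    ∃ (g : ℕ) (x : Fin g → Fin n → Bool), 1 ≤ g ∧ 2 * g + 1 ≤ n ∧
      Generates F (Set.range x) := by
  classical
  have hne : {m | ∃ X : Finset (Fin n → Bool), X.card = m ∧
      Generates F (X : Set (Fin n → Bool))}.Nonempty := by
    refine ⟨_, Finset.univ, rfl, ?_⟩
    intro S _ hS
    rw [Finset.coe_univ] at hS
    exact Set.univ_subset_iff.1 hS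
  obtain ⟨X, hX, hgen⟩ := Nat.sInf_mem hne
  change X.card = d F n at hX
  rcases Nat.eq_zero_or_pos (d F n) with h0 | h0
  · refine ⟨1, fun _ _ => false, le_rfl, by omega, ?_⟩
    intro S hS _
    refine hgen S hS ?_
    rw [h0, Finset.card_eq_zero] at hX
    rw [hX, Finset.coe_empty]
    exact Set.empty_subset _
  · refine ⟨d F n, fun i => ((X.equivFinOfCardEq hX).symm i).1, h0, by omega, ?_⟩
    intro S hS hsub
    refine hgen S hS ?_
    intro f hf
    refine hsub ⟨X.equivFinOfCardEq hX ⟨f, hf⟩, ?_⟩
    simp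

end Pool.H87G
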