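import Pool.Agent.Lib.H87G.Defs

/-!
# H87G: elementary facts (proved)
-/

namespace Pool.H87G

/-- Pull back of a closed family along a map of index sets. -/
theorem closed_pull {A : Type*} {F : Set (POp A)} {M M' : Type*} (ψ : M → M')
    {K : Set (M → A)} (hK : Closed F K) : Closed F {f : M' → A | (fun z => f (ψ z)) ∈ K} := by
  intro f hf s hs ht
  exact hK f hf (fun i z => s i (ψ z)) (fun i => hs i) (fun t => ht (ψ t))

/-- Pull back of the rule `RC` along a map of index sets. -/
theorem rc_pull {g n : ℕ} {x : Fin g → Fin n → Bool} {M M' : Type} (ψ : M → M')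
    {K : Set (M → Bool)} (hK : RC x K) : RC x {f : M' → Bool | (fun z => f (ψ z)) ∈ K} := by
  intro lam hlam h
  exact hK (fun z => lam (ψ z)) (fun i => hlam i) h

/-- A closed family satisfies the rule given by a generating set. -/
theorem rc_of_closed {F : Set (POp Bool)} {g n : ℕ} {x : Fin g → Fin n → Bool}
    (hx : Generates F (Set.range x)) {M : Type} {K : Set (M → Bool)} (hK : Closed F K) :
    RC x K := by
  intro lam hlam h
  have h1 := hx {f : Fin n → Bool | (fun z => f (lam z)) ∈ K} (closed_pull lam hK) (by
    rintro _ ⟨i, rfl⟩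
    exact hlam i)
  have h2 : h ∈ {f : Fin n → Bool | (fun z => f (lam z)) ∈ K} := by
    rw [h1]; trivial
  exact h2

end Pool.H87G
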