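import Pool.Agent.Lib.H87G.Api

/-!
# H87G chunk F2 (size S/M)

Elementary facts on positions and layers (all by evaluating at suitable indices).
F2a : if b < b' ≤ k evaluate at inl ⟨b, _⟩ : left false, right true (and symmetrically).
F2b : the same for b; for f evaluate at inr ⟨f, hf⟩.   F2c : evaluate at inr ⟨f, hf⟩.
F2d : funext; at inl j : `flip` changes only j = ⟨b, hb⟩, where lay k b f is false and
lay k (b+1) f is true; for j ≠ b : j < b ↔ j < b + 1.   F2e : funext; only inr ⟨f, hf⟩ changes.
-/

namespace Pool.H87G

theorem F2a {k b b' : ℕ} (hb : b ≤ k) (hb' : b' ≤ k) (h : pos k b = pos k b') : b = b' := by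
  rcases lt_trichotomy b b' with h1 | h1 | h1
  · have := congrFun h (Sum.inl ⟨b, by omega⟩)
    simp [pos] at this
    omega
  · exact h1
  · have := congrFun h (Sum.inl ⟨b', by omega⟩)
    simp [pos] at this
    omega

theorem F2b {k b b' f f' : ℕ} (hb : b ≤ k) (hb' : b' ≤ k) (hf : f < k)
    (h : lay k b f = lay k b' f') : b = b' ∧ f = f' := by
  constructor
  · rcases lt_trichotomy b b' with h1 | h1 | h1
    · have := congrFun h (Sum.inl ⟨b, by omega⟩)
      simp [lay] at this
      omega
    · exact h1
    · have := congrFun h (Sum.inl ⟨b', by omega⟩)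
      simp [lay] at this
      omega
  · have := congrFun h (Sum.inr ⟨f, hf⟩)
    simp [lay] at this
    exact this

theorem F2c {k b b' f : ℕ} (hf : f < k) : pos k b ≠ lay k b' f := by
  intro h
  have := congrFun h (Sum.inr ⟨f, hf⟩)
  simp [pos, lay] at this

theorem F2d {k b f : ℕ} (hb : b < k) :
    flip (Sum.inl ⟨b, hb⟩) (lay k b f) = lay k (b + 1) f ∧
    flip (Sum.inl ⟨b, hb⟩) (lay k (b + 1) f) = lay k b f := by
  constructor
  · funext j
    unfold flip
    by_cases hj : j = Sum.inl ⟨b, hb⟩
    · subst hj
      simp [lay]
    · rw [Function.update_of_ne hj]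
      cases j with
      | inl j =>
        have h1 : (j : ℕ) ≠ b := by
          intro h2
          apply hj
          congr 1
          exact Fin.ext h2
        simp only [lay, Sum.elim_inl, decide_eq_decide]
        omega
      | inr j => simp [lay]
  · funext j
    unfold flip
    by_cases hj : j = Sum.inl ⟨b, hb⟩
    · subst hj
      simp [lay]
    · rw [Function.update_of_ne hj]
      cases j with
      | inl j =>
        have h1 : (j : ℕ) ≠ b := by
          intro h2
          apply hj
          congr 1
          exact Fin.ext h2
        simp only [lay, Sum.elim_inl, decide_eq_decide]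
        omega
      | inr j => simp [lay]

theorem F2e {k b f : ℕ} (hf : f < k) :
    flip (Sum.inr ⟨f, hf⟩) (pos k b) = lay k b f ∧
    flip (Sum.inr ⟨f, hf⟩) (lay k b f) = pos k b := by
  constructor
  · funext j
    unfold flip
    by_cases hj : j = Sum.inr ⟨f, hf⟩
    · subst hj
      simp [lay, pos]
    · rw [Function.update_of_ne hj]
      cases j with
      | inl j => simp [lay, pos]
      | inr j =>
        have h1 : (j : ℕ) ≠ f := by
          intro h2
          apply hj
          congr 1
          exact Fin.ext h2
        simp [lay, pos, h1]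
  · funext j
    unfold flip
    by_cases hj : j = Sum.inr ⟨f, hf⟩
    · subst hj
      simp [lay, pos]
    · rw [Function.update_of_ne hj]
      cases j with
      | inl j => simp [lay, pos]
      | inr j =>
        have h1 : (j : ℕ) ≠ f := by
          intro h2
          apply hj
          congr 1
          exact Fin.ext h2
        simp [lay, pos, h1]

end Pool.H87G
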