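import Pool.Agent.Lib.H87G.Api
import Pool.Agent.Lib.H87G.F2

/-!
# H87G chunk F8 (size M)

For each i let k_i be the number given by hrow i; let k0 = L + Σ_i k_i (or L + sup).  Let k ≥ k0,
Q a family with RulM, RulR.  Define κ' : (Fin k ⊕ Fin k → Bool) → Fin n (classical) by
κ' e = if h : ∃ b, b < L ∧ e = pos k b then κ h.choose else c0.
For b < L : κ' (pos k b) = κ b (the chosen b' satisfies pos k b' = pos k b with b, b' < L ≤ k, so
b' = b by F2a).  For e not of this form κ' e = c0.
For every predicate p on Fin n with ¬ p c0 : {e | p (κ' e)} = posSet k ((range L).filter (p ∘ κ))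
(⊆ : p (κ' e) implies that e = pos k b for some b < L; ⊇ clear).
With p c = (x i c ≠ x i c0) and hrow i : {e | x i (κ' e) ≠ x i c0} ∈ Q for all i.  Apply RulR with
D = {c1} : {e | κ' e ∈ {c1}} = posSet k (filter (κ b = c1)) ∈ Q.
-/

namespace Pool.H87G

open Classical in
theorem f8_set {n : ℕ} {c0 : Fin n} {κ : ℕ → Fin n} {L k : ℕ} (hk : L ≤ k) (q : Fin n → Prop)
    (hq : ¬ q c0) :
    {e : Fin k ⊕ Fin k → Bool | q (if h : ∃ b, b < L ∧ e = pos k b then κ h.choose else c0)} =
      posSet k ((Finset.range L).filter (fun b => q (κ b))) := by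
  ext e
  simp only [Set.mem_setOf_eq, posSet, Finset.mem_filter, Finset.mem_range]
  constructor
  · intro h
    by_cases h1 : ∃ b, b < L ∧ e = pos k b
    · rw [dif_pos h1] at h
      exact ⟨h1.choose, ⟨h1.choose_spec.1, h⟩, h1.choose_spec.2⟩
    · rw [dif_neg h1] at h
      exact absurd h hq
  · rintro ⟨b, ⟨hb, hqb⟩, he⟩
    have h1 : ∃ b, b < L ∧ e = pos k b := ⟨b, hb, he⟩
    rw [dif_pos h1]
    have h2 : h1.choose = b :=
      F2a (h1.choose_spec.1.le.trans hk) (hb.le.trans hk) (h1.choose_spec.2.symm.trans he)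
    rw [h2]
    exact hqb

theorem F8 {g n : ℕ} (x : Fin g → Fin n → Bool) (c0 c1 : Fin n) (hc : c1 ≠ c0) (κ : ℕ → Fin n)
    (L : ℕ)
    (hrow : ∀ i, Ev x c0 ((Finset.range L).filter (fun b => x i (κ b) ≠ x i c0))) :
    Ev x c0 ((Finset.range L).filter (fun b => κ b = c1)) := by
  classical
  choose k0 hk0 using hrow
  refine ⟨L + ∑ i, k0 i, fun k hk Q hM hR => ?_⟩
  have hL : L ≤ k := le_trans (Nat.le_add_right _ _) hk
  have hki : ∀ i, k0 i ≤ k := fun i =>
    (Finset.single_le_sum (f := k0) (fun _ _ => Nat.zero_le _) (Finset.mem_univ i)).trans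
      ((Nat.le_add_left _ _).trans hk)
  have h1 := hR (fun e => if h : ∃ b, b < L ∧ e = pos k b then κ h.choose else c0) (fun i => by
    have h2 := f8_set (n := n) (c0 := c0) (κ := κ) hL (fun c => x i c ≠ x i c0) (by simp)
    rw [h2]
    have h3 := hk0 i k (hki i) Q hM hR
    have h4 : (Finset.range L).filter (fun b => x i (κ b) ≠ x i c0) =
        (Finset.range L).filter (fun b => (fun c => x i c ≠ x i c0) (κ b)) := by
      ext b; simp
    rw [h4] at h3
    have h5 : (Finset.range L).filter (fun b => (fun c => x i c ≠ x i c0) (κ b)) =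
        @Finset.filter ℕ (fun b => (fun c => x i c ≠ x i c0) (κ b)) (fun b => Classical.propDecidable _) (Finset.range L) := by
      ext b; simp
    rw [h5] at h3
    exact h3) {c1} (by
    simp only [Set.mem_singleton_iff]
    exact fun h => hc h.symm)
  have h2 := f8_set (n := n) (c0 := c0) (κ := κ) hL (fun c => c ∈ ({c1} : Set (Fin n)))
    (by simp only [Set.mem_singleton_iff]; exact fun h => hc h.symm)
  rw [h2] at h1
  have h5 : (Finset.range L).filter (fun b => κ b = c1) =
      @Finset.filter ℕ (fun b => (fun c => c ∈ ({c1} : Set (Fin n))) (κ b)) (fun b => Classical.propDecidable _) (Finset.range L) := by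
    ext b; simp
  rw [h5]
  exact h1

end Pool.H87G
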