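import Pool.Agent.Lib.H87G.Api

/-!
# H87G chunk F9 (size M)

For a column c put ε c = if 0 ≤ v c then 0 else 1, and (with M = S.sup id + 1, so b < M for b ∈ S)
block c = (Finset.range (v c).natAbs).image (fun j => 2 * (M + n * j + c) + ε c).
Facts: (i) j ↦ 2 (M + n j + c) + ε c is injective (n ≥ 1), all values are ≥ M;
(ii) im (block c) = (v c).natAbs * (-1)^(ε c) = v c (`Finset.sum_image`, `Finset.sum_const`,
pow of an even number plus ε);  (iii) for c ≠ c', block c and block c' are disjoint: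
2 (M + n j + c) + ε = 2 (M + n j' + c') + ε' with ε, ε' ≤ 1 forces M + n j + c = M + n j' + c', and
then c ≡ c' mod n, c = c' (c, c' < n);  (iv) block c is disjoint from S.
Define κ b = if b ∈ S then c1 else if h : ∃ c, c ≠ c0 ∧ c ≠ c1 ∧ b ∈ block c then h.choose else c0.
Then κ b = c1 ↔ b ∈ S (the chosen c is ≠ c1, and c0 ≠ c1); for c ≠ c0, c1 : κ b = c ↔ b ∈ block c
((iii), (iv)).  Let L be larger than all elements of S and of all blocks
(e.g. L = (S ∪ Finset.univ.biUnion block).sup id + 1); then κ b = c0 for b ≥ L.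
For c ≠ c0 : (range L).filter (κ b = c) = S if c = c1 (im = v c1 by hS) and = block c otherwise
(im = v c by (ii)).
-/

namespace Pool.H87G

/-- The block of a column. -/
def f9_block {n : ℕ} (M : ℕ) (v : Fin n → ℤ) (c : Fin n) : Finset ℕ :=
  (Finset.range (v c).natAbs).image (fun j => 2 * (M + n * j + c) + (if 0 ≤ v c then 0 else 1))

theorem f9_ge {n M : ℕ} {v : Fin n → ℤ} {c : Fin n} {b : ℕ} (h : b ∈ f9_block M v c) : M ≤ b := by
  unfold f9_block at h
  rw [Finset.mem_image] at h
  obtain ⟨j, -, hj⟩ := h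
  have : 0 ≤ n * j := Nat.zero_le _
  omega

theorem f9_disj {n M : ℕ} {v : Fin n → ℤ} {c c' : Fin n} {b : ℕ} (h : b ∈ f9_block M v c)
    (h' : b ∈ f9_block M v c') : c = c' := by
  unfold f9_block at h h'
  rw [Finset.mem_image] at h h'
  obtain ⟨j, -, hj⟩ := h
  obtain ⟨j', -, hj'⟩ := h'
  have h1 : n * j + c = n * j' + c' := by
    have e1 : (if 0 ≤ v c then 0 else 1) ≤ 1 := by split_ifs <;> omega
    have e2 : (if 0 ≤ v c' then 0 else 1) ≤ 1 := by split_ifs <;> omega
    generalize (if 0 ≤ v c then 0 else 1) = a at *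
    generalize (if 0 ≤ v c' then 0 else 1) = a' at *
    generalize n * j = s at *
    generalize n * j' = s' at *
    omega
  have h2 : (n * j + (c : ℕ)) % n = c := by
    rw [Nat.mul_add_mod]
    exact Nat.mod_eq_of_lt c.2
  have h3 : (n * j' + (c' : ℕ)) % n = c' := by
    rw [Nat.mul_add_mod]
    exact Nat.mod_eq_of_lt c'.2
  apply Fin.ext
  rw [← h2, ← h3, h1]

theorem f9_im {n M : ℕ} (v : Fin n → ℤ) (c : Fin n) : im (f9_block M v c) = v c := by
  have hn : 0 < n := lt_of_le_of_lt (Nat.zero_le _) c.2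
  unfold im f9_block
  rw [Finset.sum_image]
  · have h1 : ∀ j ∈ Finset.range (v c).natAbs, (-1 : ℤ) ^ (2 * (M + n * j + c) + (if 0 ≤ v c then 0 else 1)) =
        (-1) ^ (if 0 ≤ v c then 0 else 1) := by
      intro j _
      rw [pow_add, pow_mul]
      norm_num
    rw [Finset.sum_congr rfl h1, Finset.sum_const, Finset.card_range, nsmul_eq_mul]
    by_cases h : 0 ≤ v c
    · rw [if_pos h, pow_zero, mul_one]
      exact Int.natAbs_of_nonneg h
    · rw [if_neg h, pow_one]
      push Not at h
      have : ((v c).natAbs : ℤ) = - v c := Int.ofNat_natAbs_of_nonpos h.le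
      rw [this]
      ring
  · intro j _ j' _ hj
    simp only at hj
    have h1 : n * j = n * j' := by
      generalize n * j = s at *
      generalize n * j' = s' at *
      omega
    exact Nat.eq_of_mul_eq_mul_left hn h1

theorem F9 {n : ℕ} (c0 c1 : Fin n) (hc : c1 ≠ c0) (v : Fin n → ℤ) (S : Finset ℕ)
    (hS : im S = v c1) :
    ∃ (κ : ℕ → Fin n) (L : ℕ), (∀ b, L ≤ b → κ b = c0) ∧ (∀ b, κ b = c1 ↔ b ∈ S) ∧
      ∀ c, c ≠ c0 → im ((Finset.range L).filter (fun b => κ b = c)) = v c := by
  classical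
  obtain ⟨M, hM⟩ : ∃ M, M = S.sup id + 1 := ⟨_, rfl⟩
  have hSM : ∀ b ∈ S, b < M := fun b hb => by
    have := Finset.le_sup (f := id) hb
    simp only [id] at this
    omega
  obtain ⟨L, hL⟩ : ∃ L, L = (S ∪ Finset.univ.biUnion (f9_block M v)).sup id + 1 := ⟨_, rfl⟩
  have hLb : ∀ b ∈ S ∪ Finset.univ.biUnion (f9_block M v), b < L := fun b hb => by
    have := Finset.le_sup (f := id) hb
    simp only [id] at this
    omega
  have hLS : ∀ b ∈ S, b < L := fun b hb => hLb b (Finset.mem_union_left _ hb)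
  have hLB : ∀ c, ∀ b ∈ f9_block M v c, b < L := fun c b hb =>
    hLb b (Finset.mem_union_right _ (Finset.mem_biUnion.2 ⟨c, Finset.mem_univ c, hb⟩))
  let κ : ℕ → Fin n := fun b => if b ∈ S then c1 else
    if h : ∃ c, c ≠ c0 ∧ c ≠ c1 ∧ b ∈ f9_block M v c then h.choose else c0
  have hκ1 : ∀ b, κ b = c1 ↔ b ∈ S := by
    intro b
    constructor
    · intro h
      by_contra hb
      simp only [κ, if_neg hb] at h
      by_cases h1 : ∃ c, c ≠ c0 ∧ c ≠ c1 ∧ b ∈ f9_block M v c
      · rw [dif_pos h1] at h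
        exact h1.choose_spec.2.1 h
      · rw [dif_neg h1] at h
        exact hc h.symm
    · intro hb
      simp only [κ, if_pos hb]
  have hκc : ∀ c, c ≠ c0 → c ≠ c1 → ∀ b, κ b = c ↔ b ∈ f9_block M v c := by
    intro c h0 h1 b
    constructor
    · intro h
      by_cases hb : b ∈ S
      · exact absurd (((hκ1 b).2 hb).symm.trans h).symm h1
      · simp only [κ, if_neg hb] at h
        by_cases h2 : ∃ c, c ≠ c0 ∧ c ≠ c1 ∧ b ∈ f9_block M v c
        · rw [dif_pos h2] at h
          have h3 := h2.choose_spec.2.2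
          rw [h] at h3
          exact h3
        · rw [dif_neg h2] at h
          exact absurd h.symm h0
    · intro h
      have hb : b ∉ S := fun hb => absurd (hSM b hb) (not_lt.2 (f9_ge h))
      have h2 : ∃ c, c ≠ c0 ∧ c ≠ c1 ∧ b ∈ f9_block M v c := ⟨c, h0, h1, h⟩
      simp only [κ, if_neg hb]
      rw [dif_pos h2]
      exact f9_disj h2.choose_spec.2.2 h
  refine ⟨κ, L, ?_, hκ1, ?_⟩
  · intro b hb
    have h1 : b ∉ S := fun h => absurd (hLS b h) (not_lt.2 hb)
    simp only [κ, if_neg h1]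
    rw [dif_neg]
    rintro ⟨c, -, -, h⟩
    exact absurd (hLB c b h) (not_lt.2 hb)
  · intro c h0
    by_cases h1 : c = c1
    · subst h1
      have : (Finset.range L).filter (fun b => κ b = c) = S := by
        ext b
        rw [Finset.mem_filter, Finset.mem_range, hκ1]
        exact ⟨fun h => h.2, fun h => ⟨hLS b h, h⟩⟩
      rw [this, hS]
    · have : (Finset.range L).filter (fun b => κ b = c) = f9_block M v c := by
        ext b
        rw [Finset.mem_filter, Finset.mem_range, hκc c h0 h1]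
        exact ⟨fun h => h.2, fun h => ⟨hLB c b h, h⟩⟩
      rw [this, f9_im]

end Pool.H87G
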