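import Pool.Agent.Lib.H87G.Api
import Pool.Agent.Lib.H87G.F8
import Pool.Agent.Lib.H87G.F9

/-!
# H87G chunk F10 (size M)

Take κ, L from F9 (with hS : im S = v c1).  Claim: for every i the set
R_i = (range L).filter (x i (κ b) ≠ x i c0) has im R_i = Σ_c (if x i c ≠ x i c0 then v c else 0) :
`Finset.sum_fiberwise`-like: im R_i = Σ_{b<L} (if x i (κ b) ≠ x i c0 then (-1)^b else 0)
(`Finset.sum_filter`) = Σ_c Σ_{b<L, κ b = c} (if x i c ≠ x i c0 then (-1)^b else 0)
(`Finset.sum_fiberwise`), and for each c the inner sum is 0 if x i c = x i c0 (this includes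
c = c0) and im ((range L).filter (κ b = c)) = v c otherwise (c ≠ c0).
So by h, Ev x c0 R_i for all i, and F8 gives Ev x c0 ((range L).filter (κ b = c1)), and this
Finset is S : κ b = c1 ↔ b ∈ S, and b ∈ S implies b < L (otherwise κ b = c0 ≠ c1).
-/

namespace Pool.H87G

theorem F10 {g n : ℕ} (x : Fin g → Fin n → Bool) (c0 c1 : Fin n) (hc : c1 ≠ c0)
    (v : Fin n → ℤ)
    (h : ∀ i, ∀ S : Finset ℕ, im S = ∑ c, (if x i c ≠ x i c0 then v c else 0) → Ev x c0 S)
    (S : Finset ℕ) (hS : im S = v c1) : Ev x c0 S := by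
  classical
  obtain ⟨κ, L, hκ0, hκ1, hκ⟩ := F9 c0 c1 hc v S hS
  have hrow : ∀ i, Ev x c0 ((Finset.range L).filter (fun b => x i (κ b) ≠ x i c0)) := by
    intro i
    apply h i
    unfold im
    rw [Finset.sum_filter, ← Finset.sum_fiberwise (Finset.range L) κ]
    refine Finset.sum_congr rfl fun c _ => ?_
    by_cases hcc : x i c ≠ x i c0
    · rw [if_pos hcc]
      have hne : c ≠ c0 := fun h => hcc (by rw [h])
      have h1 := hκ c hne
      unfold im at h1
      rw [← h1]
      refine Finset.sum_congr rfl fun b hb => ?_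
      rw [(Finset.mem_filter.1 hb).2, if_pos hcc]
    · rw [if_neg hcc]
      refine Finset.sum_eq_zero fun b hb => ?_
      rw [(Finset.mem_filter.1 hb).2, if_neg hcc]
  have h8 := F8 x c0 c1 hc κ L hrow
  have hS' : (Finset.range L).filter (fun b => κ b = c1) = S := by
    ext b
    rw [Finset.mem_filter, Finset.mem_range, hκ1]
    refine ⟨fun h => h.2, fun h => ⟨?_, h⟩⟩
    by_contra hb
    have h2 := hκ0 b (not_lt.1 hb)
    have h3 := (hκ1 b).2 h
    exact hc (h3.symm.trans h2)
  rwa [hS'] at h8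

end Pool.H87G
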