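import Pool.Agent.Lib.H87G.Api

/-!
# H87G chunk F11a (size S/M)

The linear map (Fin n → R) → (Fin g → R) × R, u ↦ ((i ↦ Σ_c [x i c ≠ x i c0] u c), u c0), has
source of dimension n and target of dimension g + 1 < n, so it has a nonzero kernel element
(`LinearMap.exists_ne_zero_of_finrank_lt`? / `LinearMap.ker_ne_bot_of_finrank_lt`,
`Submodule.ne_bot_iff`; `Module.finrank_prod`, `Module.finrank_fin_fun`, `Module.finrank_self`).
-/

namespace Pool.H87G

theorem F11a {R : Type} [Field R] {g n : ℕ} (hn : g + 2 ≤ n) (x : Fin g → Fin n → Bool)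
    (c0 : Fin n) :
    ∃ u : Fin n → R, u ≠ 0 ∧ u c0 = 0 ∧
      ∀ i, ∑ c, (if x i c ≠ x i c0 then u c else 0) = 0 := by
  classical
  let L : (Fin n → R) →ₗ[R] (Fin g → R) × R :=
    { toFun := fun u => (fun i => ∑ c, (if x i c ≠ x i c0 then u c else 0), u c0)
      map_add' := by
        intro u v
        refine Prod.ext ?_ rfl
        funext i
        change (∑ c, (if x i c ≠ x i c0 then u c + v c else 0)) =
          (∑ c, (if x i c ≠ x i c0 then u c else 0)) +
          ∑ c, (if x i c ≠ x i c0 then v c else 0)
        rw [← Finset.sum_add_distrib]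
        refine Finset.sum_congr rfl fun c _ => ?_
        split_ifs
        · rfl
        · rw [add_zero]
      map_smul' := by
        intro a u
        refine Prod.ext ?_ rfl
        funext i
        change (∑ c, (if x i c ≠ x i c0 then a * u c else 0)) =
          a * ∑ c, (if x i c ≠ x i c0 then u c else 0)
        rw [Finset.mul_sum]
        refine Finset.sum_congr rfl fun c _ => ?_
        split_ifs
        · rfl
        · rw [mul_zero] }
  have hlt : Module.finrank R ((Fin g → R) × R) < Module.finrank R (Fin n → R) := by
    rw [Module.finrank_prod, Module.finrank_fin_fun, Module.finrank_fin_fun, Module.finrank_self]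
    omega
  have hker := LinearMap.ker_ne_bot_of_finrank_lt (f := L) hlt
  obtain ⟨u, hu, hu0⟩ := (Submodule.ne_bot_iff _).1 hker
  have hu' : L u = 0 := hu
  refine ⟨u, hu0, congrArg Prod.snd hu', fun i => ?_⟩
  exact congrFun (congrArg Prod.fst hu') i

end Pool.H87G
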