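import Pool.Agent.Lib.H87G.Api
import Pool.Agent.Lib.H87G.F11a

/-!
# H87G chunk F11b (size S/M)

Integer relation: take u : Fin n → ℚ from F11a and multiply by a common denominator
D = ∏ c, (u c).den ≠ 0 : for each c there is an integer w c with (w c : ℚ) = D * u c
(`Rat.num_div_den`, D / den c is a product of the other denominators; or use
`IsLocalization.exist_integer_multiples_of_finset` for ℤ ⊂ ℚ).  w ≠ 0, w c0 = 0, and the sums
vanish after casting to ℚ (`exact_mod_cast`, `Int.cast_injective`, push_cast, Finset.mul_sum).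

Relation modulo a prime q : take u : Fin n → ZMod q from F11a (`Fact q.Prime`), lift
w c = ((u c).val : ℤ) (or `ZMod.intCast_surjective`), so (w c : ZMod q) = u c.  Some u c1 ≠ 0, so
¬ q ∣ w c1 (`ZMod.intCast_zmod_eq_zero_iff_dvd` / `ZMod.intCast_eq_zero_iff_dvd`...); q divides the
sums since their images in ZMod q vanish.  For w c0 = 0 : (u c0).val = 0.
-/

namespace Pool.H87G

theorem F11b {g n : ℕ} (hn : g + 2 ≤ n) (x : Fin g → Fin n → Bool) (c0 : Fin n) :
    ∃ u : Fin n → ℤ, u ≠ 0 ∧ u c0 = 0 ∧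
      ∀ i, ∑ c, (if x i c ≠ x i c0 then u c else 0) = 0 := by
  obtain ⟨u, hu, hu0, hsum⟩ := F11a (R := ℚ) hn x c0
  obtain ⟨b, hb⟩ := IsLocalization.exist_integer_multiples_of_finite (nonZeroDivisors ℤ) u
  choose w hw using hb
  have hb0 : ((b : ℤ) : ℚ) ≠ 0 := by
    have h1 := nonZeroDivisors.coe_ne_zero b
    exact_mod_cast h1
  have hw' : ∀ c, ((w c : ℤ) : ℚ) = ((b : ℤ) : ℚ) * u c := by
    intro c
    have h1 := hw c
    rw [zsmul_eq_mul] at h1
    exact h1
  refine ⟨w, ?_, ?_, fun i => ?_⟩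
  · intro h0
    apply hu
    funext c
    have h1 := hw' c
    rw [h0, Pi.zero_apply, Int.cast_zero] at h1
    exact (mul_eq_zero.1 h1.symm).resolve_left hb0
  · have h1 := hw' c0
    rw [hu0, mul_zero] at h1
    exact_mod_cast h1
  · have h1 : ((∑ c, (if x i c ≠ x i c0 then w c else 0) : ℤ) : ℚ) = 0 := by
      have h2 : ((∑ c, (if x i c ≠ x i c0 then w c else 0) : ℤ) : ℚ) =
          ((b : ℤ) : ℚ) * ∑ c, (if x i c ≠ x i c0 then u c else 0) := by
        rw [Finset.mul_sum, Int.cast_sum]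
        refine Finset.sum_congr rfl fun c _ => ?_
        split_ifs
        · exact hw' c
        · rw [Int.cast_zero, mul_zero]
      rw [h2, hsum i, mul_zero]
    exact_mod_cast h1

theorem F11c {g n : ℕ} (hn : g + 2 ≤ n) (x : Fin g → Fin n → Bool) (c0 : Fin n) (q : ℕ)
    (hq : q.Prime) :
    ∃ (u : Fin n → ℤ) (c1 : Fin n), ¬ ((q : ℤ) ∣ u c1) ∧ u c0 = 0 ∧
      ∀ i, (q : ℤ) ∣ ∑ c, (if x i c ≠ x i c0 then u c else 0) := by
  haveI := Fact.mk hq
  obtain ⟨u, hu, hu0, hsum⟩ := F11a (R := ZMod q) hn x c0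
  obtain ⟨c1, hc1⟩ := Function.ne_iff.1 hu
  have hcast : ∀ c, (((u c).val : ℤ) : ZMod q) = u c := by
    intro c
    rw [Int.cast_natCast, ZMod.natCast_zmod_val]
  refine ⟨fun c => ((u c).val : ℤ), c1, ?_, ?_, fun i => ?_⟩
  · intro h
    have h1 := (ZMod.intCast_zmod_eq_zero_iff_dvd ((u c1).val : ℤ) q).2 h
    rw [hcast] at h1
    exact hc1 h1
  · simp [hu0]
  · rw [← ZMod.intCast_zmod_eq_zero_iff_dvd, Int.cast_sum, ← hsum i]
    refine Finset.sum_congr rfl fun c _ => ?_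
    split_ifs
    · exact hcast c
    · rw [Int.cast_zero]

end Pool.H87G
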