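import Pool.Agent.Lib.H87G.Api
import Pool.Agent.Lib.H87G.F11b

/-!
# H87G chunk F12 (size M)

Call h > 0 good if all integer multiples of h are in G.
(1) There is a good h : take u from F11b, c with u c ≠ 0, h = (u c).natAbs.  For t ∈ ℤ the vector
v = t u satisfies v c0 = 0 and all row sums are t * 0 = 0 ∈ G; so t * u c ∈ G for all t ∈ ℤ, i.e.
all multiples of h.
(2) Let h be the least good number (`Nat.find`).  If h = 1 we are done (1 = 1 * 1).  Otherwise let q
be a prime divisor of h (`Nat.exists_prime_and_dvd`), h = q h'.  Take u, c1 from F11c.  By Bezout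
there are integers s, w with s * u c1 + w * q = 1 (u c1 and q are coprime:
`Int.isCoprime_iff_gcd_eq_one`, `(Nat.Prime.coprime_iff_not_dvd)`, or
`(Nat.prime_iff_prime_int.mp hq).coprime_iff_not_dvd`).  For t ∈ ℤ let
v c = if c = c1 then t * h' * s * u c + h * (t * w) else t * h' * s * u c
(c1 ≠ c0 because u c0 = 0 is divisible by q; so v c0 = 0).  The row sums are
t h' s * (Σ_c [..] u c) + [x i c1 ≠ x i c0] * h t w, a multiple of h (the sum is divisible by q and
h' q = h), so in G.  Hence v c1 = t h' s u c1 + t h' q w = t h' (s u c1 + w q) = t h' ∈ G.  So h' is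
good, 0 < h' < h, a contradiction.
-/

namespace Pool.H87G

theorem F12 {g n : ℕ} (hn : g + 2 ≤ n) (x : Fin g → Fin n → Bool) (c0 : Fin n) (G : Set ℤ)
    (hG : ∀ v : Fin n → ℤ, v c0 = 0 →
      (∀ i, ∑ c, (if x i c ≠ x i c0 then v c else 0) ∈ G) → ∀ c, v c ∈ G)
    (h0 : (0 : ℤ) ∈ G) : (1 : ℤ) ∈ G := by
  classical
  have hex : ∃ h : ℕ, 0 < h ∧ ∀ t : ℤ, t * (h : ℤ) ∈ G := by
    obtain ⟨u, hu, hu0, hsum⟩ := F11b hn x c0
    obtain ⟨c, hc⟩ := Function.ne_iff.1 hu
    have hc' : u c ≠ 0 := hc
    refine ⟨(u c).natAbs, Int.natAbs_pos.2 hc', fun t => ?_⟩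
    have key : ∀ t : ℤ, t * u c ∈ G := by
      intro t
      refine hG (fun c => t * u c) (by simp [hu0]) (fun i => ?_) c
      have h1 : ∑ c, (if x i c ≠ x i c0 then t * u c else 0) = 0 := by
        have h2 := hsum i
        have h3 : ∑ c, (if x i c ≠ x i c0 then t * u c else 0) =
            t * ∑ c, (if x i c ≠ x i c0 then u c else 0) := by
          rw [Finset.mul_sum]
          refine Finset.sum_congr rfl fun c _ => ?_
          split_ifs <;> simp
        rw [h3, h2, mul_zero]
      rw [h1]
      exact h0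
    rcases Int.natAbs_eq (u c) with h | h
    · have e : t * ((u c).natAbs : ℤ) = t * u c := by
        have h' : ((u c).natAbs : ℤ) = u c := by linarith
        rw [h']
      rw [e]
      exact key t
    · have e : t * ((u c).natAbs : ℤ) = (-t) * u c := by
        have h' : ((u c).natAbs : ℤ) = - u c := by linarith
        rw [h']
        ring
      rw [e]
      exact key (-t)
  obtain ⟨hpos, hgood⟩ := Nat.find_spec hex
  have hmin : ∀ m, m < Nat.find hex → ¬ (0 < m ∧ ∀ t : ℤ, t * (m : ℤ) ∈ G) :=
    fun m hm => Nat.find_min hex hm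
  generalize Nat.find hex = h at hpos hgood hmin
  by_cases h1 : h = 1
  · have h2 := hgood 1
    rw [h1] at h2
    simpa using h2
  exfalso
  obtain ⟨q, hq, h', hh'⟩ := Nat.exists_prime_and_dvd h1
  obtain ⟨u, c1, hc1, hu0, hdiv⟩ := F11c hn x c0 q hq
  have hcop : IsCoprime (q : ℤ) (u c1) :=
    (Nat.prime_iff_prime_int.mp hq).coprime_iff_not_dvd.2 hc1
  obtain ⟨w, s, hws⟩ := hcop
  have hne : c1 ≠ c0 := by
    rintro rfl
    rw [hu0] at hc1
    exact hc1 (dvd_zero _)
  have hgood' : ∀ t : ℤ, t * (h' : ℤ) ∈ G := by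
    intro t
    have hv := hG (fun c => t * h' * s * u c + (if c = c1 then h * (t * w) else 0))
      (by simp [hu0, hne.symm]) (fun i => ?_) c1
    · have e : t * h' * s * u c1 + (if c1 = c1 then h * (t * w) else 0) = t * (h' : ℤ) := by
        rw [if_pos rfl, hh']
        push_cast
        linear_combination (t * h') * hws
      have hv' : t * h' * s * u c1 + (if c1 = c1 then h * (t * w) else 0) ∈ G := hv
      rwa [e] at hv'
    · obtain ⟨k, hk⟩ := hdiv i
      have e1 : ∀ c, (if x i c ≠ x i c0 then
          t * h' * s * u c + (if c = c1 then h * (t * w) else 0) else 0) =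
          (t * h' * s) * (if x i c ≠ x i c0 then u c else 0) +
            (if c = c1 then (if x i c1 ≠ x i c0 then h * (t * w) else 0) else 0) := by
        intro c
        by_cases hc : c = c1
        · subst hc
          by_cases hx : x i c = x i c0
          · simp [hx]
          · simp [hx]
        · by_cases hx : x i c = x i c0
          · simp [hx, hc]
          · simp [hx, hc]
      have e : ∑ c, (if x i c ≠ x i c0 then
          t * h' * s * u c + (if c = c1 then h * (t * w) else 0) else 0) =
          (t * s * k + (if x i c1 ≠ x i c0 then t * w else 0)) * h := by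
        rw [Finset.sum_congr rfl (fun c _ => e1 c), Finset.sum_add_distrib, ← Finset.mul_sum, hk,
          Finset.sum_ite_eq' Finset.univ c1, if_pos (Finset.mem_univ _), hh']
        push_cast
        split_ifs <;> ring
      rw [e]
      exact hgood _
  have hpos' : 0 < h' := by
    rcases Nat.eq_zero_or_pos h' with h2 | h2
    · rw [hh', h2, mul_zero] at hpos
      exact absurd hpos (lt_irrefl _)
    · exact h2
  refine hmin h' ?_ ⟨hpos', hgood'⟩
  rw [hh']
  nlinarith [hq.two_le]

end Pool.H87G
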