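import Pool.Agent.Lib.H87G.Api

/-!
# H87G chunk F1 (size S/M)

Union: let μP, μQ be the matchings; μ e = if e ∈ P then μP e else μQ e (classical).  For e ∈ P :
flip (μP e) e ∈ P so μ of it is μP of it = μP e.  For e ∈ Q : e ∉ P (hd), flip (μQ e) e ∈ Q, hence
not in P, so μ of it is μQ of it.
Edge: {e, flip i e} is matched by the constant function i : flip i (flip i e) = e.
-/

namespace Pool.H87G

theorem F1 {E : Type} [DecidableEq E] (P Q : Set (E → Bool)) (hP : Matched P) (hQ : Matched Q)
    (hd : ∀ e ∈ P, e ∉ Q) : Matched (P ∪ Q) := by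
  classical
  obtain ⟨μ, hμ⟩ := hP
  obtain ⟨ν, hν⟩ := hQ
  refine ⟨fun e => if e ∈ P then μ e else ν e, ?_⟩
  intro e he
  by_cases h : e ∈ P
  · have h1 := hμ e h
    simp only [if_pos h, if_pos h1.1]
    exact ⟨Or.inl h1.1, h1.2⟩
  · have hQe : e ∈ Q := by
      rcases he with he | he
      · exact absurd he h
      · exact he
    have h1 := hν e hQe
    have h2 : flip (ν e) e ∉ P := fun h3 => hd _ h3 h1.1
    simp only [if_neg h, if_neg h2]
    exact ⟨Or.inr h1.1, h1.2⟩

theorem F1_edge {E : Type} [DecidableEq E] (i : E) (e : E → Bool) :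
    Matched ({e, flip i e} : Set (E → Bool)) := by
  have h : flip i (flip i e) = e := by
    funext j
    unfold flip
    by_cases hj : j = i
    · subst hj; simp
    · simp [Function.update_of_ne hj]
  refine ⟨fun _ => i, ?_⟩
  rintro f (rfl | rfl)
  · exact ⟨Or.inr rfl, rfl⟩
  · exact ⟨Or.inl h, rfl⟩

end Pool.H87G
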