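import Pool.Agent.Lib.H87G.Api
import Pool.Agent.Lib.H87G.F1

/-!
# H87G chunk F1b (size S/M)

Induction on the Finset s (Finset.induction_on, classical DecidableEq α).  s = ∅ : the set is empty
and is matched by any function (E is nonempty: μ = fun _ => Classical.arbitrary E).
insert a s : {e | ∃ a' ∈ insert a s, e ∈ P a'} = P a ∪ {e | ∃ a' ∈ s, e ∈ P a'}; use F1, the
disjointness is hd (a ≠ a' since a ∉ s).
-/

namespace Pool.H87G

theorem F1b {E : Type} [DecidableEq E] [Nonempty E] {α : Type} (s : Finset α)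
    (P : α → Set (E → Bool)) (h : ∀ a ∈ s, Matched (P a))
    (hd : ∀ a ∈ s, ∀ a' ∈ s, a ≠ a' → ∀ e ∈ P a, e ∉ P a') :
    Matched {e | ∃ a ∈ s, e ∈ P a} := by
  classical
  induction s using Finset.induction_on with
  | empty =>
    refine ⟨fun _ => Classical.arbitrary E, ?_⟩
    rintro e ⟨a, ha, _⟩
    simp at ha
  | insert a s ha ih =>
    have h1 : {e | ∃ a' ∈ insert a s, e ∈ P a'} = P a ∪ {e | ∃ a' ∈ s, e ∈ P a'} := by
      ext e
      simp [Finset.mem_insert]
    rw [h1]
    apply F1
    · exact h a (Finset.mem_insert_self a s)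
    · exact ih (fun b hb => h b (Finset.mem_insert_of_mem hb))
        (fun b hb c hc => hd b (Finset.mem_insert_of_mem hb) c (Finset.mem_insert_of_mem hc))
    · rintro e he ⟨b, hb, hb2⟩
      exact hd a (Finset.mem_insert_self a s) b (Finset.mem_insert_of_mem hb)
        (fun hab => ha (hab ▸ hb)) e he hb2

end Pool.H87G
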