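import Pool.Agent.Lib.H87G.Api
import Pool.Agent.Lib.H87G.F1
import Pool.Agent.Lib.H87G.F2

/-!
# H87G chunk F3 (size S/M)

Induction on m.  m = 0 : itv k lo 0 f is empty, matched by the constant function inr ⟨f, hf⟩.
m + 1 : itv k lo (2 (m+1)) f = itv k lo (2 m) f ∪ {lay k b f, lay k (b+1) f} with b = lo + 2 m,
and b < k since lo + 2 (m+1) ≤ k + 1.  The pair is {e, flip (inl ⟨b, _⟩) e} with e = lay k b f (F2d),
matched by F1_edge; the two sets are disjoint by F2b (all indices are ≤ k); use F1.
-/

namespace Pool.H87G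

theorem F3 {k lo m f : ℕ} (hk : lo + 2 * m ≤ k + 1) (hf : f < k) :
    Matched (itv k lo (2 * m) f) := by
  induction m with
  | zero =>
    refine ⟨fun _ => Sum.inr ⟨f, hf⟩, ?_⟩
    rintro e ⟨b, h1, h2, _⟩
    omega
  | succ m ih =>
    have ih' := ih (by omega)
    have hb : lo + 2 * m < k := by omega
    have h1 : itv k lo (2 * (m + 1)) f = itv k lo (2 * m) f ∪
        {lay k (lo + 2 * m) f, flip (Sum.inl ⟨lo + 2 * m, hb⟩) (lay k (lo + 2 * m) f)} := by
      rw [(F2d hb).1]
      ext e
      constructor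
      · rintro ⟨b, h2, h3, rfl⟩
        by_cases h4 : b < lo + 2 * m
        · exact Or.inl ⟨b, h2, h4, rfl⟩
        · by_cases h5 : b = lo + 2 * m
          · subst h5
            exact Or.inr (Or.inl rfl)
          · have h6 : b = lo + 2 * m + 1 := by omega
            subst h6
            exact Or.inr (Or.inr rfl)
      · rintro (⟨b, h2, h3, rfl⟩ | h | h)
        · exact ⟨b, h2, by omega, rfl⟩
        · exact ⟨lo + 2 * m, by omega, by omega, h⟩
        · exact ⟨lo + 2 * m + 1, by omega, by omega, h⟩
    rw [h1]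
    apply F1 _ _ ih' (F1_edge _ _)
    rintro e ⟨b, h2, h3, rfl⟩ h
    rw [(F2d hb).1] at h
    rcases h with h | h
    · have := (F2b (by omega) (by omega) hf h).1
      omega
    · have := (F2b (by omega) (by omega) hf h).1
      omega

end Pool.H87G
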