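import Pool.Agent.Lib.H87G.Api
import Pool.Agent.Lib.H87G.F2

/-!
# H87G chunk F5a (size S/M)

Define (classical) κ e = if e ∈ posSet k S ∪ Q then cs else if h : ∃ i : Fin g, e ∈ itv k lo
(2 m + 2) (f0 + i) then dd h.choose else c0.
First and third claims: clear (third: `rw [if_neg, dif_neg]`).  Second: let e ∈ itv .. (f0 + i), so
e = lay k b (f0 + i) with lo ≤ b < lo + (2 m + 2) ≤ k + 1, so b ≤ k, and f0 + i < f0 + g ≤ k.
e ∉ posSet k S by F2c and e ∉ Q by hQ (f0 ≤ f0 + i < k, b ≤ k).  The chosen i' satisfies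
e = lay k b' (f0 + i'), so f0 + i = f0 + i' by F2b, i = i'.
-/

namespace Pool.H87G

theorem F5a {g n k f0 lo m : ℕ} (S : Finset ℕ) (Q : Set (Fin k ⊕ Fin k → Bool))
    (hk : lo + 2 * m + 1 ≤ k) (hf : f0 + g ≤ k)
    (hQ : ∀ b f, f0 ≤ f → f < k → b ≤ k → lay k b f ∉ Q)
    (c0 cs : Fin n) (dd : Fin g → Fin n) :
    ∃ κ : (Fin k ⊕ Fin k → Bool) → Fin n,
      (∀ e, e ∈ posSet k S ∪ Q → κ e = cs) ∧
      (∀ i : Fin g, ∀ e ∈ itv k lo (2 * m + 2) (f0 + i), κ e = dd i) ∧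
      (∀ e, e ∉ posSet k S ∪ Q → (∀ i : Fin g, e ∉ itv k lo (2 * m + 2) (f0 + i)) →
        κ e = c0) := by
  classical
  refine ⟨fun e => if e ∈ posSet k S ∪ Q then cs else
    if h : ∃ i : Fin g, e ∈ itv k lo (2 * m + 2) (f0 + i) then dd h.choose else c0, ?_, ?_, ?_⟩
  · intro e he
    simp only [if_pos he]
  · intro i e he
    have hi := i.2
    obtain ⟨b, hb1, hb2, rfl⟩ := he
    have h1 : lay k b (f0 + i) ∉ posSet k S ∪ Q := by
      rintro (⟨s, _, hs⟩ | h)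
      · exact F2c (by omega) hs.symm
      · exact hQ b (f0 + i) (by omega) (by omega) (by omega) h
    have h2 : ∃ i' : Fin g, lay k b (f0 + i) ∈ itv k lo (2 * m + 2) (f0 + i') :=
      ⟨i, b, hb1, hb2, rfl⟩
    simp only [if_neg h1, dif_pos h2]
    congr 1
    obtain ⟨b', hb1', hb2', h3⟩ := h2.choose_spec
    have h4 := (F2b (by omega) (by omega) (by omega) h3).2
    apply Fin.ext
    omega
  · intro e he h
    have h2 : ¬ ∃ i' : Fin g, e ∈ itv k lo (2 * m + 2) (f0 + i') := by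
      rintro ⟨i', hi'⟩
      exact h i' hi'
    simp only [if_neg he, dif_neg h2]

end Pool.H87G
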