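import Pool.Agent.Lib.H87G.Api
import Pool.Agent.Lib.H87G.F1
import Pool.Agent.Lib.H87G.F2
import Pool.Agent.Lib.H87G.F3

/-!
# H87G chunk F4 (size M)

The set is the disjoint union of the edge {pos k lo, lay k lo f}, the interval
itv k (lo + 1) (2 m) f and the edge {pos k hi, lay k hi f}, hi = lo + 2 m + 1 ≤ k :
itv k lo (2m+2) f consists of lay k b f for b = lo, lo < b < hi, b = hi.
Edges are matched by F2e and F1_edge, the interval by F3 ((lo + 1) + 2 m ≤ k + 1).
Disjointness by F2a (lo ≠ hi), F2b, F2c.  Use F1 twice and a set equality (ext).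
-/

namespace Pool.H87G

theorem f4_edge {k b f : ℕ} (hf : f < k) :
    Matched ({pos k b, lay k b f} : Set (Fin k ⊕ Fin k → Bool)) := by
  have h := F1_edge (Sum.inr ⟨f, hf⟩) (pos k b)
  rw [(F2e hf).1] at h
  exact h

theorem F4 {k lo m f : ℕ} (hk : lo + 2 * m + 1 ≤ k) (hf : f < k) :
    Matched (({pos k lo, pos k (lo + 2 * m + 1)} : Set (Fin k ⊕ Fin k → Bool)) ∪
      itv k lo (2 * m + 2) f) := by
  have heq : (({pos k lo, pos k (lo + 2 * m + 1)} : Set (Fin k ⊕ Fin k → Bool)) ∪
      itv k lo (2 * m + 2) f) =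
      (({pos k lo, lay k lo f} : Set (Fin k ⊕ Fin k → Bool)) ∪
        {pos k (lo + 2 * m + 1), lay k (lo + 2 * m + 1) f}) ∪ itv k (lo + 1) (2 * m) f := by
    ext e
    constructor
    · rintro ((h | h) | ⟨b, h1, h2, h⟩)
      · exact Or.inl (Or.inl (Or.inl h))
      · exact Or.inl (Or.inr (Or.inl h))
      · by_cases h3 : b = lo
        · rw [h3] at h
          exact Or.inl (Or.inl (Or.inr h))
        · by_cases h4 : b = lo + 2 * m + 1
          · rw [h4] at h
            exact Or.inl (Or.inr (Or.inr h))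
          · exact Or.inr ⟨b, by omega, by omega, h⟩
    · rintro (((h | h) | (h | h)) | ⟨b, h1, h2, h⟩)
      · exact Or.inl (Or.inl h)
      · exact Or.inr ⟨lo, by omega, by omega, h⟩
      · exact Or.inl (Or.inr h)
      · exact Or.inr ⟨lo + 2 * m + 1, by omega, by omega, h⟩
      · exact Or.inr ⟨b, by omega, by omega, h⟩
  rw [heq]
  refine F1 _ _ (F1 _ _ (f4_edge hf) (f4_edge hf) ?_) (F3 (by omega) hf) ?_
  · rintro e (h | h) (h' | h')
    · have h1 : pos k lo = pos k (lo + 2 * m + 1) := h.symm.trans h'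
      have := F2a (by omega) (by omega) h1
      omega
    · have h1 : pos k lo = lay k (lo + 2 * m + 1) f := h.symm.trans h'
      exact F2c hf h1
    · have h1 : pos k (lo + 2 * m + 1) = lay k lo f := h'.symm.trans h
      exact F2c hf h1
    · have h1 : lay k lo f = lay k (lo + 2 * m + 1) f := h.symm.trans h'
      have := (F2b (by omega) (by omega) hf h1).1
      omega
  · rintro e ((h | h) | (h | h)) ⟨b, h1, h2, h'⟩
    · exact F2c hf (h.symm.trans h')
    · have := (F2b (by omega) (by omega) hf (h.symm.trans h')).1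
      omega
    · exact F2c hf (h.symm.trans h')
    · have := (F2b (by omega) (by omega) hf (h.symm.trans h')).1
      omega

end Pool.H87G
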