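import Pool.Agent.Lib.H87G.Api
import Pool.Agent.Lib.H87G.F1
import Pool.Agent.Lib.H87G.F1b
import Pool.Agent.Lib.H87G.F2
import Pool.Agent.Lib.H87G.F3
import Pool.Agent.Lib.H87G.F4

/-!
# H87G chunk F5b (size M)

(1) Matched: the set is the union of Q (matched), the set of F4 for the layer f0 + i < k, and
{e | ∃ i' ∈ U, e ∈ itv .. (f0 + i')}, matched by F1b and F3 (2 m + 2 = 2 (m + 1),
lo + 2 (m+1) ≤ k + 1; layers f0 + i' are different for different i', F2b; the type
Fin k ⊕ Fin k is nonempty since f0 + i < k).  The three sets are pairwise disjoint: Q contains no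
lay k b f with f0 ≤ f < k, b ≤ k, and not the two positions; the others by F2b, F2c (i ∉ U).
Use F1 twice.
(2) No element of layer f ≥ f0 + g (f < k, b ≤ k) is in the set: hQ, F2c, F2b.
(3) For s ≤ k, s ≠ lo, s ≠ lo + 2 m + 1 with pos k s ∉ Q : pos k s is not in the set: F2a, F2c.
-/

namespace Pool.H87G

theorem F5b {g k f0 lo m : ℕ} (hk : lo + 2 * m + 1 ≤ k) (hf : f0 + g ≤ k)
    (Q : Set (Fin k ⊕ Fin k → Bool)) (hQM : Matched Q)
    (hQ : ∀ b f, f0 ≤ f → f < k → b ≤ k → lay k b f ∉ Q)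
    (hlo : pos k lo ∉ Q) (hhi : pos k (lo + 2 * m + 1) ∉ Q)
    (i : Fin g) (U : Finset (Fin g)) (hi : i ∉ U)
    (Q' : Set (Fin k ⊕ Fin k → Bool))
    (hQ' : Q' = (Q ∪ (({pos k lo, pos k (lo + 2 * m + 1)} : Set (Fin k ⊕ Fin k → Bool)) ∪
      itv k lo (2 * m + 2) (f0 + i))) ∪ {e | ∃ i' ∈ U, e ∈ itv k lo (2 * m + 2) (f0 + i')}) :
    Matched Q' ∧ (∀ b f, f0 + g ≤ f → f < k → b ≤ k → lay k b f ∉ Q') ∧
      (∀ s, s ≤ k → s ≠ lo → s ≠ lo + 2 * m + 1 → pos k s ∉ Q → pos k s ∉ Q') := by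
  classical
  have hi0 := i.2
  have hne : Nonempty (Fin k ⊕ Fin k) := ⟨Sum.inl ⟨0, by omega⟩⟩
  have hU : Matched {e | ∃ i' ∈ U, e ∈ itv k lo (2 * m + 2) (f0 + i')} := by
    refine F1b U (fun i' : Fin g => itv k lo (2 * m + 2) (f0 + i')) ?_ ?_
    · intro i' _
      have h1 : Matched (itv k lo (2 * (m + 1)) (f0 + i')) :=
        F3 (by omega) (by have := i'.2; omega)
      have h2 : 2 * (m + 1) = 2 * m + 2 := by ring
      rw [h2] at h1
      exact h1
    · intro a _ a' _ haa' e he he'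
      obtain ⟨b, hb1, hb2, rfl⟩ := he
      obtain ⟨b', hb1', hb2', heq'⟩ := he'
      have h3 := F2b (by omega) (by omega) (by have := a.2; omega) heq'
      exact haa' (Fin.ext (by omega))
  have hF4 : Matched (({pos k lo, pos k (lo + 2 * m + 1)} : Set (Fin k ⊕ Fin k → Bool)) ∪
      itv k lo (2 * m + 2) (f0 + i)) := F4 hk (by omega)
  have h1 : Matched (Q ∪ (({pos k lo, pos k (lo + 2 * m + 1)} :
      Set (Fin k ⊕ Fin k → Bool)) ∪ itv k lo (2 * m + 2) (f0 + i))) := by
    refine F1 _ _ hQM hF4 ?_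
    rintro e heQ ((he | he) | he)
    · rw [he] at heQ
      exact hlo heQ
    · have he' : e = pos k (lo + 2 * m + 1) := he
      rw [he'] at heQ
      exact hhi heQ
    · obtain ⟨b, hb1, hb2, rfl⟩ := he
      exact hQ b (f0 + i) (by omega) (by omega) (by omega) heQ
  refine ⟨?_, ?_, ?_⟩
  · rw [hQ']
    refine F1 _ _ h1 hU ?_
    rintro e he ⟨i', hi', he'⟩
    obtain ⟨b, hb1, hb2, rfl⟩ := he'
    have hi'k := i'.2
    rcases he with heQ | ((he | he) | he)
    · exact hQ b (f0 + i') (by omega) (by omega) (by omega) heQ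
    · exact F2c (by omega) he.symm
    · have he' : lay k b (f0 + i') = pos k (lo + 2 * m + 1) := he
      exact F2c (by omega) he'.symm
    · obtain ⟨b', hb1', hb2', heq'⟩ := he
      have h3 := F2b (by omega) (by omega) (by omega) heq'
      have h4 : i' = i := Fin.ext (by omega)
      rw [h4] at hi'
      exact hi hi'
  · intro b f hf1 hf2 hb
    rw [hQ']
    rintro ((heQ | ((he | he) | he)) | he)
    · exact hQ b f (by omega) hf2 hb heQ
    · exact F2c hf2 he.symm
    · have he' : lay k b f = pos k (lo + 2 * m + 1) := he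
      exact F2c hf2 he'.symm
    · obtain ⟨b', hb1', hb2', heq'⟩ := he
      have h3 := F2b (by omega) (by omega) (by omega) heq'
      omega
    · obtain ⟨i', _, b', hb1', hb2', heq'⟩ := he
      have hi'k := i'.2
      have h3 := F2b (by omega) (by omega) (by omega) heq'
      omega
  · intro s hs hs1 hs2 hsQ
    rw [hQ']
    rintro ((heQ | ((he | he) | he)) | he)
    · exact hsQ heQ
    · exact hs1 (F2a hs (by omega) he)
    · have he' : pos k s = pos k (lo + 2 * m + 1) := he
      exact hs2 (F2a hs (by omega) he')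
    · obtain ⟨b', hb1', hb2', heq'⟩ := he
      exact F2c (by omega) heq'
    · obtain ⟨i', _, b', hb1', hb2', heq'⟩ := he
      have hi'k := i'.2
      exact F2c (by omega) heq'

end Pool.H87G
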