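import Pool.Agent.Lib.H87G.Api
import Pool.Agent.Lib.H87G.F1
import Pool.Agent.Lib.H87G.F1b
import Pool.Agent.Lib.H87G.F2
import Pool.Agent.Lib.H87G.F3
import Pool.Agent.Lib.H87G.F5a
import Pool.Agent.Lib.H87G.F5b

/-!
# H87G chunk F5 (size M)

Take κ from F5a (hk : lo + 2 m + 1 ≤ k by hS hhi).  Let H i = itv k lo (2 m + 2) (f0 + i).
Facts: κ = cs on posSet k S ∪ Q, κ = dd i on H i, κ = c0 elsewhere; in particular every e is of
one of the three kinds.  Apply hR to κ and D = {cs} (c0 ∉ D).  {e | κ e ∈ {cs}} = posSet k S ∪ Q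
since dd i ≠ cs and c0 ≠ cs.  It remains to show for each row i : R_i = {e | x i (κ e) ≠ x i c0} ∈ QQ.

Case x i cs = x i c0 : R_i = {e | ∃ i' ∈ U, e ∈ H i'} with U = {i' | x i (dd i') ≠ x i c0} (a
filter of univ) : for e in H i' the row value is x i (dd i'); for e in posSet ∪ Q or elsewhere
the value is x i c0.  It is matched by F1b, F3 (layers are distinct, F2b; if g = 0 there is no
row i, so Fin k ⊕ Fin k is nonempty because f0 + i < k), so it is in QQ by hM.

Case x i cs ≠ x i c0 : then x i (dd i) = x i cs ≠ x i c0, so i ∈ U.  Let U' = U.erase i and Q' as in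
F5b (with U').  Then R_i = posSet k S' ∪ Q' with S' = (S.erase lo).erase (lo + 2 m + 1) :
R_i = posSet k S ∪ Q ∪ ⋃_{i' ∈ U} H i', and posSet k S = posSet k S' ∪ {pos k lo, pos k hi}.
By F5b, Q' satisfies the hypotheses of IH (third one: for s ∈ S', s ≤ k, s ≠ lo, s ≠ hi, pos k s ∉ Q
by hQS), so R_i ∈ QQ by IH.
-/

namespace Pool.H87G

theorem F5 {g n k f0 lo m : ℕ} (x : Fin g → Fin n → Bool) (c0 cs : Fin n) (dd : Fin g → Fin n)
    (hc : c0 ≠ cs) (hdd : ∀ i, dd i ≠ cs ∧ x i (dd i) = x i cs)
    (QQ : Set (Set (Fin k ⊕ Fin k → Bool))) (hM : RulM QQ) (hR : RulR x c0 QQ)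
    (S : Finset ℕ) (hS : ∀ s ∈ S, s ≤ k) (hlo : lo ∈ S) (hhi : lo + 2 * m + 1 ∈ S)
    (hf : f0 + g ≤ k) (Q : Set (Fin k ⊕ Fin k → Bool)) (hQM : Matched Q)
    (hQ : ∀ b f, f0 ≤ f → f < k → b ≤ k → lay k b f ∉ Q) (hQS : ∀ s ∈ S, pos k s ∉ Q)
    (IH : ∀ Q' : Set (Fin k ⊕ Fin k → Bool), Matched Q' →
      (∀ b f, f0 + g ≤ f → f < k → b ≤ k → lay k b f ∉ Q') →
      (∀ s ∈ (S.erase lo).erase (lo + 2 * m + 1), pos k s ∉ Q') →
      posSet k ((S.erase lo).erase (lo + 2 * m + 1)) ∪ Q' ∈ QQ) :
    posSet k S ∪ Q ∈ QQ := by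
  classical
  have hk : lo + 2 * m + 1 ≤ k := hS _ hhi
  obtain ⟨κ, hκ1, hκ2, hκ3⟩ := F5a S Q hk hf hQ c0 cs dd
  have hkind : ∀ e, (e ∈ posSet k S ∪ Q ∧ κ e = cs) ∨
      (∃ i : Fin g, e ∈ itv k lo (2 * m + 2) (f0 + i) ∧ κ e = dd i) ∨
      (e ∉ posSet k S ∪ Q ∧ (∀ i : Fin g, e ∉ itv k lo (2 * m + 2) (f0 + i)) ∧ κ e = c0) := by
    intro e
    by_cases h1 : e ∈ posSet k S ∪ Q
    · exact Or.inl ⟨h1, hκ1 e h1⟩
    · by_cases h2 : ∃ i : Fin g, e ∈ itv k lo (2 * m + 2) (f0 + i)
      · obtain ⟨i, hi⟩ := h2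
        exact Or.inr (Or.inl ⟨i, hi, hκ2 i e hi⟩)
      · have h2' : ∀ i : Fin g, e ∉ itv k lo (2 * m + 2) (f0 + i) := fun i hi => h2 ⟨i, hi⟩
        exact Or.inr (Or.inr ⟨h1, h2', hκ3 e h1 h2'⟩)
  have hmain := hR κ ?_ {cs} (by simpa using hc)
  · have heq : {e | κ e ∈ ({cs} : Set (Fin n))} = posSet k S ∪ Q := by
      ext e
      simp only [Set.mem_setOf_eq, Set.mem_singleton_iff]
      constructor
      · intro he
        rcases hkind e with h | ⟨i, hi, h⟩ | ⟨_, _, h⟩
        · exact h.1
        · exact absurd (h.symm.trans he) (hdd i).1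
        · exact absurd (h.symm.trans he) hc
      · intro he
        exact hκ1 e he
    rw [heq] at hmain
    exact hmain
  · intro i
    have hne : Nonempty (Fin k ⊕ Fin k) := by
      have hi := i.2
      exact ⟨Sum.inl ⟨0, by omega⟩⟩
    -- the set of the rows
    by_cases hcs : x i cs = x i c0
    · have heq : {e | x i (κ e) ≠ x i c0} =
          {e | ∃ i' ∈ (Finset.univ.filter (fun i' : Fin g => x i (dd i') ≠ x i c0)),
            e ∈ itv k lo (2 * m + 2) (f0 + i')} := by
        ext e
        simp only [Set.mem_setOf_eq, Finset.mem_filter, Finset.mem_univ, true_and]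
        constructor
        · intro he
          rcases hkind e with h | ⟨i', hi', h⟩ | ⟨_, _, h⟩
          · exact absurd (by rw [h.2, hcs]) he
          · exact ⟨i', by rw [← h]; exact he, hi'⟩
          · exact absurd (by rw [h]) he
        · rintro ⟨i', hi', he⟩
          rw [hκ2 i' e he]
          exact hi'
      rw [heq]
      refine hM _ (F1b _ _ ?_ ?_)
      · intro i' _
        have h1 : Matched (itv k lo (2 * (m + 1)) (f0 + i')) :=
          F3 (by omega) (by have := i'.2; omega)
        have h2 : 2 * (m + 1) = 2 * m + 2 := by ring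
        rw [h2] at h1
        exact h1
      · intro a _ a' _ haa' e he he'
        obtain ⟨b, hb1, hb2, rfl⟩ := he
        obtain ⟨b', hb1', hb2', heq'⟩ := he'
        have h3 := F2b (by omega) (by omega) (by have := a.2; omega) heq'
        exact haa' (Fin.ext (by omega))
    · have hcs' : x i (dd i) ≠ x i c0 := by
        rw [(hdd i).2]
        exact hcs
      set U := Finset.univ.filter (fun i' : Fin g => x i (dd i') ≠ x i c0) with hU
      have hiU : i ∈ U := by
        rw [hU]
        simp only [Finset.mem_filter, Finset.mem_univ, true_and]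
        exact hcs'
      set S' := (S.erase lo).erase (lo + 2 * m + 1) with hS'
      set Q' := (Q ∪ (({pos k lo, pos k (lo + 2 * m + 1)} : Set (Fin k ⊕ Fin k → Bool)) ∪
        itv k lo (2 * m + 2) (f0 + i))) ∪
        {e | ∃ i' ∈ U.erase i, e ∈ itv k lo (2 * m + 2) (f0 + i')} with hQ'
      obtain ⟨hM', hQ2, hQ3⟩ := F5b hk hf Q hQM hQ (hQS lo hlo) (hQS _ hhi) i (U.erase i)
        (Finset.notMem_erase i U) Q' hQ'
      have heq : {e | x i (κ e) ≠ x i c0} = posSet k S' ∪ Q' := by
        ext e
        simp only [Set.mem_setOf_eq]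
        constructor
        · intro he
          rcases hkind e with h | ⟨i', hi', h⟩ | ⟨_, _, h⟩
          · rcases h.1 with hp | hq
            · obtain ⟨b, hb, rfl⟩ := hp
              by_cases hb1 : b = lo
              · rw [hb1]
                exact Or.inr (Or.inl (Or.inr (Or.inl (Or.inl rfl))))
              · by_cases hb2 : b = lo + 2 * m + 1
                · rw [hb2]
                  exact Or.inr (Or.inl (Or.inr (Or.inl (Or.inr rfl))))
                · refine Or.inl ⟨b, ?_, rfl⟩
                  rw [hS', Finset.mem_erase, Finset.mem_erase]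
                  exact ⟨hb2, hb1, hb⟩
            · exact Or.inr (Or.inl (Or.inl hq))
          · rw [h] at he
            by_cases hii : i' = i
            · rw [hii] at hi'
              exact Or.inr (Or.inl (Or.inr (Or.inr hi')))
            · refine Or.inr (Or.inr ⟨i', ?_, hi'⟩)
              rw [Finset.mem_erase]
              refine ⟨hii, ?_⟩
              rw [hU]
              simp only [Finset.mem_filter, Finset.mem_univ, true_and]
              exact he
          · exact absurd (by rw [h]) he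
        · intro he
          have hin : e ∈ posSet k S ∪ Q ∨ ∃ i' : Fin g, e ∈ itv k lo (2 * m + 2) (f0 + i') ∧
              x i (dd i') ≠ x i c0 := by
            rcases he with hp | ((hq | ((hlo' | hhi') | hit)) | hit)
            · obtain ⟨b, hb, rfl⟩ := hp
              rw [hS', Finset.mem_erase, Finset.mem_erase] at hb
              exact Or.inl (Or.inl ⟨b, hb.2.2, rfl⟩)
            · exact Or.inl (Or.inr hq)
            · rw [hlo']
              exact Or.inl (Or.inl ⟨lo, hlo, rfl⟩)
            · have hhi'' : e = pos k (lo + 2 * m + 1) := hhi'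
              rw [hhi'']
              exact Or.inl (Or.inl ⟨_, hhi, rfl⟩)
            · exact Or.inr ⟨i, hit, hcs'⟩
            · obtain ⟨i', hi', hit'⟩ := hit
              rw [Finset.mem_erase, hU] at hi'
              simp only [Finset.mem_filter, Finset.mem_univ, true_and] at hi'
              exact Or.inr ⟨i', hit', hi'.2⟩
          rcases hin with h | ⟨i', hit', hi'⟩
          · rw [hκ1 e h]
            exact hcs
          · rw [hκ2 i' e hit']
            exact hi'
      rw [heq]
      refine IH Q' hM' hQ2 ?_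
      intro s hs
      rw [hS', Finset.mem_erase, Finset.mem_erase] at hs
      exact hQ3 s (hS s hs.2.2) hs.2.1 hs.1 (hQS s hs.2.2)

end Pool.H87G
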