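import Pool.Agent.Lib.H87G.Api
import Pool.Agent.Lib.H87G.F5

/-!
# H87G chunk F6 (size M)

Claim A.  Induction on N (S, Q, f0 arbitrary).
N = 0 : S = ∅, posSet k ∅ ∪ Q = Q ∈ QQ by hM.
N + 1 : S is nonempty and im S = 0.  There are an even a ∈ S and an odd b ∈ S : if all elements
were even, im S = card S ≠ 0 (each (-1) ^ b = 1 : `Even.neg_one_pow`, `Finset.sum_congr`,
`Finset.sum_const`); if all were odd, im S = - card S ≠ 0.  Let lo = min a b, hi = max a b; they
have different parity so hi = lo + 2 m + 1 for some m (omega after cases).  Let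
S' = (S.erase lo).erase hi; card S' = card S - 2 = 2 N, and im S' = im S - (-1)^lo - (-1)^hi = 0
(`Finset.sum_erase_eq_sub`/`Finset.add_sum_erase`; (-1)^(lo + 2m + 1) = - (-1)^lo).
Apply F5 (f0 + g ≤ f0 + (N+1) g ≤ k); its IH is the induction hypothesis with S' and f0 + g
(f0 + g + N g ≤ k).
-/

namespace Pool.H87G

theorem f6_pair (S : Finset ℕ) (hS : S.Nonempty) (h0 : im S = 0) :
    ∃ lo m, lo ∈ S ∧ lo + 2 * m + 1 ∈ S := by
  have hc : (0 : ℤ) < S.card := by exact_mod_cast Finset.card_pos.2 hS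
  have h1 : ∃ a ∈ S, Even a := by
    by_contra hne
    push Not at hne
    have h2 : im S = -(S.card : ℤ) := by
      unfold im
      rw [Finset.sum_congr rfl (fun b hb => (Nat.not_even_iff_odd.1 (hne b hb)).neg_one_pow),
        Finset.sum_const, nsmul_eq_mul]
      ring
    rw [h0] at h2
    linarith
  have h1' : ∃ a ∈ S, Odd a := by
    by_contra hne
    push Not at hne
    have h2 : im S = (S.card : ℤ) := by
      unfold im
      rw [Finset.sum_congr rfl (fun b hb => (Nat.not_odd_iff_even.1 (hne b hb)).neg_one_pow),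
        Finset.sum_const, nsmul_eq_mul]
      ring
    rw [h0] at h2
    linarith
  obtain ⟨a, ha, ⟨u, hu⟩⟩ := h1
  obtain ⟨b, hb, ⟨v, hv⟩⟩ := h1'
  rcases lt_or_ge a b with h | h
  · refine ⟨a, v - u, ha, ?_⟩
    have : a + 2 * (v - u) + 1 = b := by omega
    rw [this]
    exact hb
  · refine ⟨b, u - v - 1, hb, ?_⟩
    have : b + 2 * (u - v - 1) + 1 = a := by omega
    rw [this]
    exact ha

theorem f6_im (S : Finset ℕ) (lo m : ℕ) (hlo : lo ∈ S) (hhi : lo + 2 * m + 1 ∈ S)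
    (h0 : im S = 0) : im ((S.erase lo).erase (lo + 2 * m + 1)) = 0 := by
  have h1 : lo + 2 * m + 1 ∈ S.erase lo := Finset.mem_erase.2 ⟨by omega, hhi⟩
  unfold im at h0 ⊢
  rw [← Finset.add_sum_erase _ _ hlo, ← Finset.add_sum_erase _ _ h1] at h0
  have h2 : (-1 : ℤ) ^ (lo + 2 * m + 1) = -(-1) ^ lo := by
    rw [pow_succ, pow_add, pow_mul]
    simp
  rw [h2] at h0
  linarith

theorem F6 {g n k : ℕ} (x : Fin g → Fin n → Bool) (c0 cs : Fin n) (dd : Fin g → Fin n)
    (hc : c0 ≠ cs) (hdd : ∀ i, dd i ≠ cs ∧ x i (dd i) = x i cs)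
    (QQ : Set (Set (Fin k ⊕ Fin k → Bool))) (hM : RulM QQ) (hR : RulR x c0 QQ) :
    ∀ (N : ℕ) (S : Finset ℕ) (Q : Set (Fin k ⊕ Fin k → Bool)) (f0 : ℕ), S.card = 2 * N →
      im S = 0 → (∀ s ∈ S, s ≤ k) → f0 + N * g ≤ k → Matched Q →
      (∀ b f, f0 ≤ f → f < k → b ≤ k → lay k b f ∉ Q) → (∀ s ∈ S, pos k s ∉ Q) →
      posSet k S ∪ Q ∈ QQ := by
  intro N
  induction N with
  | zero =>
    intro S Q f0 hcard _ _ _ hQM _ _
    have hS : S = ∅ := Finset.card_eq_zero.1 (by omega)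
    subst hS
    have h1 : posSet k ∅ ∪ Q = Q := by
      ext e
      constructor
      · rintro (⟨b, hb, _⟩ | h)
        · simp at hb
        · exact h
      · exact fun h => Or.inr h
    rw [h1]
    exact hM Q hQM
  | succ N ih =>
    intro S Q f0 hcard him hS hf hQM hQ hQS
    have hne : S.Nonempty := Finset.card_pos.1 (by omega)
    obtain ⟨lo, m, hlo, hhi⟩ := f6_pair S hne him
    have hf' : f0 + g + N * g ≤ k := by
      have : f0 + (N + 1) * g = f0 + g + N * g := by ring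
      omega
    refine F5 x c0 cs dd hc hdd QQ hM hR S hS hlo hhi (by omega) Q hQM hQ hQS ?_
    intro Q' hQM' hQ' hQS'
    have h1 : lo + 2 * m + 1 ∈ S.erase lo := Finset.mem_erase.2 ⟨by omega, hhi⟩
    refine ih _ Q' (f0 + g) ?_ (f6_im S lo m hlo hhi him) ?_ hf' hQM' hQ' hQS'
    · rw [Finset.card_erase_of_mem h1, Finset.card_erase_of_mem hlo]
      omega
    · intro s hs
      exact hS s (Finset.mem_of_mem_erase (Finset.mem_of_mem_erase hs))

end Pool.H87G
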