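import Pool.Agent.Lib.H87G.Api
import Pool.Agent.Lib.H87G.F6

/-!
# H87G chunk F7 (size S/M)

card S is even because card S ≡ im S (mod 2) : (-1)^b - 1 is even for every b, so im S - card S is
even (induction on S, or `Finset.dvd_sum`).  Write card S = 2 N.  Let
k0 = S.sup id + N * g + 1.  For k ≥ k0 and Q with the two rules, apply F6 to N, S, the empty set
and f0 = 0 : elements of S are ≤ S.sup id ≤ k (`Finset.le_sup`), N g ≤ k; ∅ is matched
(the index type Fin k ⊕ Fin k is nonempty as k ≥ 1 : μ = fun _ => Sum.inl ⟨0, _⟩); the other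
conditions are trivial; `Set.union_empty`.
-/

namespace Pool.H87G

theorem f7_even (S : Finset ℕ) (hS : im S = 0) : ∃ N, S.card = 2 * N := by
  have h1 : (2 : ℤ) ∣ ∑ b ∈ S, ((-1 : ℤ) ^ b - 1) := by
    refine Finset.dvd_sum fun b _ => ?_
    rcases Nat.even_or_odd b with h | h
    · rw [h.neg_one_pow]
      simp
    · rw [h.neg_one_pow]
      norm_num
  rw [Finset.sum_sub_distrib, Finset.sum_const, nsmul_eq_mul, mul_one] at h1
  have h2 : ∑ b ∈ S, (-1 : ℤ) ^ b = 0 := hS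
  rw [h2] at h1
  obtain ⟨c, hc⟩ := h1
  exact ⟨(-c).toNat, by omega⟩

theorem F7 {g n : ℕ} (x : Fin g → Fin n → Bool) (c0 cs : Fin n) (dd : Fin g → Fin n)
    (hc : c0 ≠ cs) (hdd : ∀ i, dd i ≠ cs ∧ x i (dd i) = x i cs) (S : Finset ℕ)
    (hS : im S = 0) : Ev x c0 S := by
  obtain ⟨N, hN⟩ := f7_even S hS
  refine ⟨S.sup id + N * g + 1, ?_⟩
  intro k hk QQ hM hR
  have h1 : Matched (∅ : Set (Fin k ⊕ Fin k → Bool)) :=
    ⟨fun _ => Sum.inl ⟨0, by omega⟩, fun e he => absurd he (Set.notMem_empty e)⟩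
  have h2 := F6 x c0 cs dd hc hdd QQ hM hR N S ∅ 0 hN hS (by
    intro s hs
    have : s ≤ S.sup id := Finset.le_sup (f := id) hs
    omega) (by omega) h1 (fun _ _ _ _ _ h => absurd h (Set.notMem_empty _))
    (fun _ _ h => absurd h (Set.notMem_empty _))
  rw [Set.union_empty] at h2
  exact h2

end Pool.H87G
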