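import Pool.Agent.Lib.H87G.F0
import Pool.Agent.Lib.H87G.F7
import Pool.Agent.Lib.H87G.F10
import Pool.Agent.Lib.H87G.F12

/-!
# H87G: the combinatorial theorem (assembly)
-/

namespace Pool.H87G

/-- For every code with `2 g + 1 ≤ n` there are a column `c0` and `k` such that the vertex `0` of
the cube on `Fin k ⊕ Fin k` is in every family closed under the matching rule and the relabelling
rule. -/
theorem CT {g n : ℕ} (hg : 1 ≤ g) (hn : 2 * g + 1 ≤ n) (x : Fin g → Fin n → Bool) :
    ∃ (c0 : Fin n) (k : ℕ), ∀ Q : Set (Set (Fin k ⊕ Fin k → Bool)),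
      RulM Q → RulR x c0 Q → {(fun _ => false : Fin k ⊕ Fin k → Bool)} ∈ Q := by
  obtain ⟨c0, cs, dd, hc, hdd⟩ := F0 hg hn x
  have key : (1 : ℤ) ∈ {z : ℤ | ∀ S : Finset ℕ, im S = z → Ev x c0 S} := by
    apply F12 (show g + 2 ≤ n by omega) x c0
    · intro v hv0 h c1
      by_cases h1 : c1 = c0
      · subst h1
        intro S hS
        exact F7 x c1 cs dd hc hdd S (by rw [hS, hv0])
      · intro S hS
        exact F10 x c0 c1 h1 v h S hS
    · intro S hS
      exact F7 x c0 cs dd hc hdd S hS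
  obtain ⟨k, hk⟩ := key {0} (by simp [im])
  refine ⟨c0, k, fun Q hM hR => ?_⟩
  have h1 := hk k le_rfl Q hM hR
  have h2 : posSet k {0} = {(fun _ => false : Fin k ⊕ Fin k → Bool)} := by
    have h3 : pos k 0 = (fun _ => false : Fin k ⊕ Fin k → Bool) := by
      funext i
      cases i <;> simp [pos]
    ext e
    simp [posSet, h3]
  rw [h2] at h1
  exact h1

end Pool.H87G
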