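import Mathlib

/-!
# H87G: the gap theorem for 2-element partial algebras (MP_73a90e_al)

Definitions shared by all chunks.  See `PROOF.md` in this directory for the complete proof.
-/

namespace Pool.H87G

/-- A partial operation on `A`: an arity (possibly `0`), a domain, and its values on the domain
(the values of `fn` outside `dom` are never used). -/
structure POp (A : Type*) where
  ar : ℕ
  dom : Set (Fin ar → A)
  fn : (Fin ar → A) → A

/-- `S ⊆ A^ι` is closed under the partial operations of `F` acting coordinatewise on `A^ι`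
(the value is defined iff it is defined in every coordinate). -/
def Closed {A : Type*} (F : Set (POp A)) {ι : Type*} (S : Set (ι → A)) : Prop :=
  ∀ f ∈ F, ∀ s : Fin f.ar → ι → A, (∀ i, s i ∈ S) → (∀ t, (fun i => s i t) ∈ f.dom) →
    (fun t => f.fn (fun i => s i t)) ∈ S

/-- `X` generates `A^ι`: the only closed subset containing `X` is everything. -/
def Generates {A : Type*} (F : Set (POp A)) {ι : Type*} (X : Set (ι → A)) : Prop :=
  ∀ S : Set (ι → A), Closed F S → X ⊆ S → S = Set.univ

/-- `d F n` is the least size of a generating set of `A^n`. -/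
noncomputable def d {A : Type*} (F : Set (POp A)) (n : ℕ) : ℕ :=
  sInf {m | ∃ X : Finset (Fin n → A), X.card = m ∧ Generates F (X : Set (Fin n → A))}

/-- The rule given by the generating set `x`, for a family `K` of functions on `M`. -/
def RC {g n : ℕ} (x : Fin g → Fin n → Bool) {M : Type} (K : Set (M → Bool)) : Prop :=
  ∀ lam : M → Fin n, (∀ i, (fun z => x i (lam z)) ∈ K) →
    ∀ h : Fin n → Bool, (fun z => h (lam z)) ∈ K

/-- The Boolean function `f` does not depend on the bit `j`. -/
def MissBit {ι : Type} (j : ι) (f : (ι → Bool) → Bool) : Prop :=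
  ∀ y z : ι → Bool, (∀ i, i ≠ j → y i = z i) → f y = f z

/-- The function `f (t, v)` does not depend on the coordinate `v l`. -/
def MissCo {T : Type} {r : ℕ} (l : Fin r) (f : T × (Fin r → T) → Bool) : Prop :=
  ∀ (t : T) (v w : Fin r → T), (∀ i, i ≠ l → v i = w i) → f (t, v) = f (t, w)

/-- Binary validity. -/
def ValBin {g n : ℕ} (x : Fin g → Fin n → Bool) (b : ℕ) (ι : Type) : Prop :=
  ∀ K : Set ((Fin b × Bool) ⊕ (ι → Bool) → Bool), RC x K →
    (∀ f, (∃ k, f (Sum.inl (k, false)) = f (Sum.inl (k, true))) → f ∈ K) →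
    (∀ f, (∃ j, MissBit j (fun z => f (Sum.inr z))) → f ∈ K) → K = Set.univ

/-- General validity. -/
def ValGen {g n : ℕ} (x : Fin g → Fin n → Bool) (b r : ℕ) : Prop :=
  ∀ (T : Type) [Finite T] (K : Set ((Fin b × Bool) ⊕ (T × (Fin r → T)) → Bool)), RC x K →
    (∀ f, (∃ k, f (Sum.inl (k, false)) = f (Sum.inl (k, true))) → f ∈ K) →
    (∀ f, (∃ l, MissCo l (fun z => f (Sum.inr z))) → f ∈ K) → K = Set.univ

/-- The rule for a family `B` of Boolean functions on the cube `ι → Bool` given by general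
validity. -/
def PRule {ι : Type} (r : ℕ) (B : Set ((ι → Bool) → Bool)) : Prop :=
  ∀ (T : Type) [Finite T] (φ : (ι → Bool) → Bool ⊕ (T × (Fin r → T))),
    (∀ h : Bool ⊕ (T × (Fin r → T)) → Bool,
      h (Sum.inl false) = h (Sum.inl true) → (fun z => h (φ z)) ∈ B) →
    (∀ h : Bool ⊕ (T × (Fin r → T)) → Bool,
      (∃ l, MissCo l (fun z => h (Sum.inr z))) → (fun z => h (φ z)) ∈ B) →
    ∀ h : Bool ⊕ (T × (Fin r → T)) → Bool, (fun z => h (φ z)) ∈ B

/-- The rule for a family `W` of functions on `X` given by binary validity (Boolean algebra). -/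
def LRule {X : Type} (r : ℕ) (W : Set (X → Bool)) : Prop :=
  ∀ v : Fin r → X → Bool,
    (∀ G : (Fin r → Bool) → Bool, (∃ j, MissBit j G) → (fun z => G (fun l => v l z)) ∈ W) →
    ∀ G : (Fin r → Bool) → Bool, (fun z => G (fun l => v l z)) ∈ W

/-- `W` contains all `G (v_1, ..., v_r)` with `v_l` in `Fam` and `G` missing a bit. -/
def PiProp {X : Type} (r : ℕ) (W Fam : Set (X → Bool)) : Prop :=
  ∀ v : Fin r → X → Bool, (∀ l, v l ∈ Fam) →
    ∀ G : (Fin r → Bool) → Bool, (∃ j, MissBit j G) → (fun z => G (fun l => v l z)) ∈ W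

/-- `y` and `z` agree outside `I`. -/
def AgreeOff {ι : Type} (I : Set ι) (y z : ι → Bool) : Prop := ∀ i, i ∉ I → y i = z i

/-- `A` is closed under changing the coordinates in `I`. -/
def Sat {ι : Type} (A : Set (ι → Bool)) (I : Set ι) : Prop :=
  ∀ y z, y ∈ A → AgreeOff I y z → z ∈ A

/-- On `A` the function `f` does not depend on the coordinates in `I`. -/
def InvOn {ι : Type} (A : Set (ι → Bool)) (I : Set ι) (f : (ι → Bool) → Bool) : Prop :=
  ∀ y z, y ∈ A → AgreeOff I y z → f y = f z

/-- Every function which is constant off `A` and `I`-invariant on `A` is in `B`. -/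
def Good {ι : Type} (B : Set ((ι → Bool) → Bool)) (A : Set (ι → Bool)) (I : Set ι) : Prop :=
  ∀ (c : Bool) (f : (ι → Bool) → Bool), (∀ z, z ∉ A → f z = c) → InvOn A I f → f ∈ B

/-- Flip the coordinate `i`. -/
def flip {E : Type} [DecidableEq E] (i : E) (e : E → Bool) : E → Bool :=
  Function.update e i (!(e i))

/-- `P` is a disjoint union of edges of the cube. -/
def Matched {E : Type} [DecidableEq E] (P : Set (E → Bool)) : Prop :=
  ∃ μ : (E → Bool) → E, ∀ e ∈ P, flip (μ e) e ∈ P ∧ μ (flip (μ e) e) = μ e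

/-- The matching rule. -/
def RulM {E : Type} [DecidableEq E] (Q : Set (Set (E → Bool))) : Prop :=
  ∀ P : Set (E → Bool), Matched P → P ∈ Q

/-- The relabelling rule. -/
def RulR {g n : ℕ} (x : Fin g → Fin n → Bool) (c0 : Fin n) {E : Type}
    (Q : Set (Set (E → Bool))) : Prop :=
  ∀ κ : (E → Bool) → Fin n, (∀ i, {e | x i (κ e) ≠ x i c0} ∈ Q) →
    ∀ D : Set (Fin n), c0 ∉ D → {e | κ e ∈ D} ∈ Q

/-- The family of regions `P` of the cube `E → Bool` such that `B` contains every function equal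
to `σ (z ∘ inr)` over `P` and to `c` off `P`. -/
def PFam {E : Type} {m : ℕ} (B : Set ((E ⊕ Fin m → Bool) → Bool)) : Set (Set (E → Bool)) :=
  {P | ∀ (σ : (Fin m → Bool) → Bool) (c : Bool) (f : (E ⊕ Fin m → Bool) → Bool),
    (∀ z : E ⊕ Fin m → Bool, (fun e => z (Sum.inl e)) ∈ P → f z = σ (fun j => z (Sum.inr j))) →
    (∀ z : E ⊕ Fin m → Bool, (fun e => z (Sum.inl e)) ∉ P → f z = c) → f ∈ B}

/-- The position `b` (`b ≤ k`): the first `b` bits of the first block. -/
def pos (k b : ℕ) : Fin k ⊕ Fin k → Bool :=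
  Sum.elim (fun j => decide ((j : ℕ) < b)) (fun _ => false)

/-- The copy of position `b` in the layer `f` (`f < k`). -/
def lay (k b f : ℕ) : Fin k ⊕ Fin k → Bool :=
  Sum.elim (fun j => decide ((j : ℕ) < b)) (fun f' => decide ((f' : ℕ) = f))

/-- The set of the positions in `S`. -/
def posSet (k : ℕ) (S : Finset ℕ) : Set (Fin k ⊕ Fin k → Bool) := {e | ∃ b ∈ S, e = pos k b}

/-- The interval `[lo, lo + m)` in the layer `f`. -/
def itv (k lo m f : ℕ) : Set (Fin k ⊕ Fin k → Bool) :=
  {e | ∃ b, lo ≤ b ∧ b < lo + m ∧ e = lay k b f}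

/-- The set of positions `S` is eventually in every family satisfying the two rules. -/
def Ev {g n : ℕ} (x : Fin g → Fin n → Bool) (c0 : Fin n) (S : Finset ℕ) : Prop :=
  ∃ k0 : ℕ, ∀ k, k0 ≤ k → ∀ Q : Set (Set (Fin k ⊕ Fin k → Bool)),
    RulM Q → RulR x c0 Q → posSet k S ∈ Q

/-- The imbalance of a finite set of positions. -/
def im (S : Finset ℕ) : ℤ := ∑ b ∈ S, (-1 : ℤ) ^ b

end Pool.H87G
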