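import Pool.Agent.Lib.H87G.Api

/-!
# H87G chunk F0 (size M)

Call a column c unique in row i if for all c' ≠ c, x i c' ≠ x i c.  Each row i has at most one
unique column: if c ≠ c' are both unique in row i, take a third column c'' (n ≥ 3, e.g. by
`Fintype.card`/`Finset.exists_mem_notMem_of_card_lt_card`: the Finset {c, c'} has card ≤ 2 < n);
x i c ≠ x i c', x i c'' ≠ x i c, x i c'' ≠ x i c' is impossible in Bool.
So the set of columns which are unique in some row has at most g elements (the map from this set
to Fin g choosing a row is injective; or: `by_contra`, if every column is unique in some row,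
choose ρ : Fin n → Fin g with c unique in row ρ c; ρ is injective by the first remark, so n ≤ g,
contradiction).  Hence there is a column cs which is not unique in any row: for every i there is
dd i ≠ cs with x i (dd i) = x i cs.  c0 : any column different from cs (n ≥ 2).
-/

namespace Pool.H87G

theorem F0 {g n : ℕ} (hg : 1 ≤ g) (hn : 2 * g + 1 ≤ n) (x : Fin g → Fin n → Bool) :
    ∃ (c0 cs : Fin n) (dd : Fin g → Fin n), c0 ≠ cs ∧
      ∀ i, dd i ≠ cs ∧ x i (dd i) = x i cs := by
  classical
  have hcs : ∃ cs : Fin n, ∀ i, ∃ d, d ≠ cs ∧ x i d = x i cs := by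
    by_contra hcon
    push Not at hcon
    choose ρ hρ using hcon
    have hinj : Function.Injective ρ := by
      intro c c' hcc
      by_contra hne
      obtain ⟨c'', hc''⟩ : ∃ c'' : Fin n, c'' ∉ ({c, c'} : Finset (Fin n)) := by
        by_contra hall
        push Not at hall
        have h1 : (Finset.univ : Finset (Fin n)) ⊆ {c, c'} := fun d _ => hall d
        have h2 := Finset.card_le_card h1
        rw [Finset.card_univ, Fintype.card_fin] at h2
        have h3 : ({c, c'} : Finset (Fin n)).card ≤ 2 := Finset.card_le_two
        omega
      simp only [Finset.mem_insert, Finset.mem_singleton, not_or] at hc''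
      have h1 := hρ c c'' hc''.1
      have h2 := hρ c c' (Ne.symm hne)
      have h3 := hρ c' c'' hc''.2
      rw [← hcc] at h3
      revert h1 h2 h3
      cases x (ρ c) c <;> cases x (ρ c) c' <;> cases x (ρ c) c'' <;> simp
    have h7 := Fintype.card_le_of_injective ρ hinj
    rw [Fintype.card_fin, Fintype.card_fin] at h7
    omega
  obtain ⟨cs, hcs⟩ := hcs
  choose dd hdd using hcs
  obtain ⟨c0, hc0⟩ : ∃ c0 : Fin n, c0 ≠ cs := by
    haveI : Nontrivial (Fin n) := Fin.nontrivial_iff_two_le.2 (by omega)
    exact exists_ne cs
  exact ⟨c0, cs, dd, hc0, hdd⟩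

end Pool.H87G
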